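import Mathlib

/-!
# Chains: the unknowns, the degrees and the statement on systems of equations

A chain of `D + 1` links has the unknown vertices `z_k` (`1 ≤ k ≤ D`) and the unknown contraction
parameters `τ_k` (`1 ≤ k ≤ D`). After restriction of scalars `z_k` has `N` coordinates, `τ_k` has
one for `k < D`, and `τ_D` has `th` coordinates. Everything is graded by `Fin D → ℤ`.
-/

set_option autoImplicit false

namespace ZC

universe u

/-- the unknowns: `N` coordinates of `z_k` (`1 ≤ k ≤ D`), one `τ_k` (`1 ≤ k < D`) and `th`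
coordinates of `τ_D` -/
abbrev CVar (D N th : ℕ) : Type := (Fin D × Fin N) ⊕ (Fin (D - 1) ⊕ Fin th)

/-- the basis of `Fin D → ℤ`, numbered from `1` to `D`; zero outside this range -/
def ep (D k : ℕ) : Fin D → ℤ := fun i => if (i : ℕ) + 1 = k then 1 else 0

/-- the degree of `τ_k` (`1 ≤ k ≤ D`) -/
def al (D k : ℕ) : Fin D → ℤ := 2 • ep D k - ep D (k - 1) - ep D (k + 1)

/-- the level of an unknown, between `1` and `D` -/
def lev {D N th : ℕ} : CVar D N th → ℕ
  | Sum.inl (k, _) => (k : ℕ) + 1
  | Sum.inr (Sum.inl k) => (k : ℕ) + 1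
  | Sum.inr (Sum.inr _) => D

/-- the degree of an unknown -/
def wt {D N th : ℕ} : CVar D N th → (Fin D → ℤ)
  | Sum.inl (k, _) => ep D ((k : ℕ) + 1)
  | Sum.inr (Sum.inl k) => al D ((k : ℕ) + 1)
  | Sum.inr (Sum.inr _) => al D D

/-- the degree of the `j`-th equation of a form of degree `d` -/
def dg (D d j : ℕ) : Fin D → ℤ :=
  ((d : ℤ) * ((j / d : ℕ) + 1) - j) • ep D (j / d) +
    ((j : ℤ) - d * (j / d : ℕ)) • ep D (j / d + 1)

/-- in every level some unknown does not vanish -/
def Stable {D N th : ℕ} {K : Type u} [Zero K] (x : CVar D N th → K) : Prop :=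
  ∀ k, 1 ≤ k → k ≤ D → ∃ s, lev s = k ∧ x s ≠ 0

/-- systems with `E a` equations of degree `dg D (d a) j` for every `a` and `0 < j < d a * (D + 1)`
have stable zeros -/
def HasZeros (D N th : ℕ) {r : ℕ} (d E : Fin r → ℕ) (K : Type u) [CommRing K] : Prop :=
  ∀ g : (a : Fin r) → ℕ → Fin (E a) → MvPolynomial (CVar D N th) K,
    (∀ a j i, 0 < j → j < d a * (D + 1) →
      MvPolynomial.IsWeightedHomogeneous wt (g a j i) (dg D (d a) j)) →
    ∃ x : CVar D N th → K, Stable x ∧
      ∀ a j i, 0 < j → j < d a * (D + 1) → MvPolynomial.eval x (g a j i) = 0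

/-- the hypothesis one level below: unknowns are polynomials of degree at most `S`, equations are
polynomials of degree less than `d a * S + c` -/
def UP (D N th : ℕ) {r : ℕ} (d E : Fin r → ℕ) (F : Type u) [CommRing F] : Prop :=
  ∀ c : ℕ, ∃ S : ℕ, HasZeros D (N * (S + 1)) (th * (S + 1)) d (fun a => E a * (d a * S + c)) F

end ZC
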