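import Mathlib
import Pool.Agent.Helper25.BD.ChainDefs

/-!
# Chains: clearing denominators, degrees and pairings
-/

set_option autoImplicit false

open MvPolynomial

namespace ZC

universe u v

/-- a polynomial over the fraction field, homogeneous in any sense, comes from the ring after
multiplication by a nonzero constant -/
theorem exists_integer_homogeneous {R : Type u} [CommRing R] [IsDomain R] {K : Type v} [Field K]
    [Algebra R K] [IsFractionRing R K] {σ Γ : Type*} [AddCommMonoid Γ] {w : σ → Γ} {δ : Γ}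
    {f : MvPolynomial σ K} (hf : IsWeightedHomogeneous w f δ) :
    ∃ (b : R) (g : MvPolynomial σ R), b ≠ 0 ∧ IsWeightedHomogeneous w g δ ∧
      map (algebraMap R K) g = C (algebraMap R K b) * f := by
  classical
  obtain ⟨b, hb⟩ := IsLocalization.exist_integer_multiples_of_finset
    (nonZeroDivisors R) (Finset.image (fun d => f.coeff d) f.support)
  have h2 : ∀ d, ∃ c : R, algebraMap R K c = algebraMap R K b * f.coeff d := by
    intro d
    by_cases hd : d ∈ f.support
    · obtain ⟨c, hc⟩ := hb _ (Finset.mem_image_of_mem _ hd)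
      exact ⟨c, by rw [hc, Algebra.smul_def]⟩
    · exact ⟨0, by rw [map_zero, notMem_support_iff.mp hd, mul_zero]⟩
  choose c hc using h2
  refine ⟨b, ∑ d ∈ f.support, monomial d (c d), nonZeroDivisors.coe_ne_zero b, ?_, ?_⟩
  · refine IsWeightedHomogeneous.sum _ _ _ fun d hd => isWeightedHomogeneous_monomial _ _ _ ?_
    exact hf (mem_support_iff.mp hd)
  · rw [map_sum]
    simp only [map_monomial, hc]
    conv_rhs => rw [f.as_sum, Finset.mul_sum]
    refine Finset.sum_congr rfl fun d _ => ?_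
    rw [C_mul_monomial]

/-- **clearing denominators** -/
theorem HasZeros.of_integers {D N th r : ℕ} {d E : Fin r → ℕ} {R : Type u} [CommRing R]
    [IsDomain R] (K : Type v) [Field K] [Algebra R K] [IsFractionRing R K]
    (h : HasZeros D N th d E R) : HasZeros D N th d E K := by
  classical
  intro g hg
  have h1 : ∀ (a : Fin r) (j : ℕ) (i : Fin (E a)), ∃ (b : R) (g' : MvPolynomial (CVar D N th) R),
      (0 < j → j < d a * (D + 1) → b ≠ 0 ∧ IsWeightedHomogeneous wt g' (dg D (d a) j) ∧
        map (algebraMap R K) g' = C (algebraMap R K b) * g a j i) := by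
    intro a j i
    by_cases hj : 0 < j ∧ j < d a * (D + 1)
    · obtain ⟨b, g', hb, hg', hm⟩ := exists_integer_homogeneous (R := R) (hg a j i hj.1 hj.2)
      exact ⟨b, g', fun _ _ => ⟨hb, hg', hm⟩⟩
    · exact ⟨0, 0, fun h0 h1 => absurd ⟨h0, h1⟩ hj⟩
  choose b g' hbg using h1
  obtain ⟨x, hxs, hx⟩ := h g' (fun a j i h0 h1 => (hbg a j i h0 h1).2.1)
  refine ⟨fun s => algebraMap R K (x s), fun k hk hk' => ?_, fun a j i h0 h1 => ?_⟩
  · obtain ⟨s, hs, hs'⟩ := hxs k hk hk'
    exact ⟨s, hs, fun h2 => hs' (IsFractionRing.injective R K (h2.trans (map_zero _).symm))⟩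
  · obtain ⟨hb, -, hm⟩ := hbg a j i h0 h1
    have h3 : eval (fun s => algebraMap R K (x s)) (map (algebraMap R K) (g' a j i)) = 0 := by
      rw [eval_map]
      have h4 := eval₂_comp_left (algebraMap R K) (RingHom.id _) x (g' a j i)
      rw [eval₂_id, hx a j i h0 h1, map_zero, RingHom.comp_id] at h4
      exact h4.symm
    rw [hm, map_mul, eval_C] at h3
    rcases mul_eq_zero.mp h3 with h | h
    · exact absurd (IsFractionRing.injective R K (by rw [h, map_zero])) hb
    · exact h

section pairing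

variable {D : ℕ}

/-- the pairing with an integral vector -/
def pairZ (la : Fin D → ℤ) : (Fin D → ℤ) →+ ℤ where
  toFun g := ∑ i, g i * la i
  map_zero' := by simp
  map_add' := by
    intro x y
    rw [← Finset.sum_add_distrib]
    exact Finset.sum_congr rfl fun i _ => by rw [Pi.add_apply, add_mul]

/-- the entries of a vector, numbered from `1` to `D`, zero outside this range -/
def lamZ (la : Fin D → ℤ) (k : ℕ) : ℤ := pairZ la (ep D k)

lemma lamZ_zero (la : Fin D → ℤ) : lamZ la 0 = 0 := by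
  simp [lamZ, pairZ, ep]

lemma lamZ_of_lt (la : Fin D → ℤ) {k : ℕ} (h : D < k) : lamZ la k = 0 := by
  have h1 : ∀ i : Fin D, ¬ ((i : ℕ) + 1 = k) := fun i hi => by
    have := i.2
    omega
  simp [lamZ, pairZ, ep, h1]

lemma lamZ_succ (la : Fin D → ℤ) (i : Fin D) : lamZ la ((i : ℕ) + 1) = la i := by
  unfold lamZ pairZ ep
  simp only [AddMonoidHom.coe_mk, ZeroHom.coe_mk]
  rw [Finset.sum_eq_single i]
  · simp
  · intro j _ hj
    rw [if_neg, zero_mul]
    intro h
    exact hj (Fin.ext (by omega))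
  · intro h
    exact absurd (Finset.mem_univ _) h

lemma pairZ_al (la : Fin D → ℤ) (k : ℕ) :
    pairZ la (al D k) = 2 * lamZ la k - lamZ la (k - 1) - lamZ la (k + 1) := by
  unfold al lamZ
  rw [map_sub, map_sub, map_nsmul]
  simp

lemma pairZ_dg (la : Fin D → ℤ) (d j : ℕ) :
    pairZ la (dg D d j) = ((d : ℤ) * ((j / d : ℕ) + 1) - j) * lamZ la (j / d) +
      ((j : ℤ) - d * (j / d : ℕ)) * lamZ la (j / d + 1) := by
  unfold dg lamZ
  rw [map_add, map_zsmul, map_zsmul, smul_eq_mul, smul_eq_mul]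

/-- the degrees of the equations are convex combinations -/
lemma pairZ_dg_le (la : Fin D → ℤ) {d : ℕ} (hd : 0 < d) (j : ℕ) {S : ℤ}
    (h : ∀ k, lamZ la k ≤ S) : pairZ la (dg D d j) ≤ d * S := by
  rw [pairZ_dg]
  have h1 : (0 : ℤ) ≤ (j : ℤ) - d * (j / d : ℕ) := by
    have := Nat.mul_div_le j d
    have h2 : ((d * (j / d) : ℕ) : ℤ) ≤ (j : ℤ) := by exact_mod_cast this
    push_cast at h2 ⊢
    linarith
  have h2 : (0 : ℤ) ≤ (d : ℤ) * ((j / d : ℕ) + 1) - j := by
    have := Nat.lt_mul_div_succ j hd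
    have h2 : (j : ℤ) < ((d * (j / d + 1) : ℕ) : ℤ) := by exact_mod_cast this
    push_cast at h2 ⊢
    linarith
  have h3 := mul_le_mul_of_nonneg_left (h (j / d)) h2
  have h4 := mul_le_mul_of_nonneg_left (h (j / d + 1)) h1
  nlinarith

lemma pairZ_add_single (la : Fin D → ℤ) (i : Fin D) (g : Fin D → ℤ) :
    pairZ (la + Pi.single i 1) g = pairZ la g + g i := by
  unfold pairZ
  simp only [AddMonoidHom.coe_mk, ZeroHom.coe_mk, Pi.add_apply, mul_add,
    Finset.sum_add_distrib]
  congr 1
  rw [Finset.sum_eq_single i]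
  · simp
  · intro j _ hj
    rw [Pi.single_eq_of_ne hj, mul_zero]
  · intro h
    exact absurd (Finset.mem_univ _) h

/-- the positive entries of the degrees of the unknowns -/
lemma wt_pos {N th : ℕ} (i : Fin D) (s : CVar D N th) (h : 0 < wt s i) :
    lev s = (i : ℕ) + 1 ∧ wt s i ≤ 2 := by
  rcases s with ⟨k, b⟩ | k | b
  · simp only [wt, ep, lev] at h ⊢
    split_ifs at h with h1
    · rw [if_pos h1]
      exact ⟨h1.symm, by norm_num⟩
    · exact absurd h (lt_irrefl _)
  · simp only [wt, al, ep, lev, Pi.sub_apply, Pi.smul_apply] at h ⊢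
    have hk := k.2
    have hi := i.2
    split_ifs at h ⊢ <;> simp at h ⊢ <;> omega
  · simp only [wt, al, ep, lev, Pi.sub_apply, Pi.smul_apply] at h ⊢
    have hi := i.2
    split_ifs at h ⊢ <;> simp at h ⊢ <;> omega

end pairing

end ZC
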