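import Pool.Agent.Helper25.BD.Sep

/-!
# Equations for the points of a variety which is separable over a field of fractions
-/

set_option autoImplicit false

namespace ZC

open IntermediateField Polynomial

section Abs

variable {B F K A : Type*} [CommRing B] [IsDomain B] [Field F] [Field K] [Algebra B F]
  [IsFractionRing B F] [Algebra F K] [Algebra B K] [IsScalarTower B F K] [CommRing A]
  (π : A →+* K) (ι : B →+* A)

omit [IsDomain B] in
lemma pi_eval (hι : ∀ b, π (ι b) = algebraMap B K b) (θ : A) (G : B[X]) :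
    π (G.eval₂ ι θ) = aeval (π θ) G := by
  rw [hom_eval₂, aeval_def]
  congr 1
  ext b
  exact hι b

lemma aeval_clear (q : F[X]) (θ : K) : ∃ b : B, b ≠ 0 ∧ ∃ q₀ : B[X],
    q₀.map (algebraMap B F) = C (algebraMap B F b) * q ∧
      aeval θ q₀ = algebraMap B K b * aeval θ q := by
  obtain ⟨b, hb, h⟩ := IsLocalization.integerNormalization_spec (nonZeroDivisors B) q
  have h1 : b • q = C (algebraMap B F b) * q := by
    rw [← smul_eq_C_mul, algebraMap_smul]
  rw [h1] at h
  refine ⟨b, nonZeroDivisors.ne_zero hb, _, h, ?_⟩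
  rw [← aeval_map_algebraMap F θ, h, map_mul, aeval_C, ← IsScalarTower.algebraMap_apply B F K]

/-- A primitive element which comes from `A`, its equation over `B`, and denominators. -/
theorem exists_abs [FiniteDimensional F K] [Algebra.IsSeparable F K]
    (hι : ∀ b, π (ι b) = algebraMap B K b)
    (hπ : ∀ w : K, ∃ a b : A, π b ≠ 0 ∧ w * π b = π a) :
    ∃ (θ : A) (P : B[X]), π (P.eval₂ ι θ) = 0 ∧ π (P.derivative.eval₂ ι θ) ≠ 0 ∧
      (∀ w : K, ∃ (D : B) (Q : B[X]), D ≠ 0 ∧ algebraMap B K D * w = π (Q.eval₂ ι θ)) ∧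
      ∀ G : B[X], π (G.eval₂ ι θ) = 0 → ∃ E : B, E ≠ 0 ∧ P ∣ C E * G := by
  have hinj : Function.Injective (algebraMap B F) := IsFractionRing.injective B F
  have hinjK : Function.Injective (algebraMap B K) := by
    rw [IsScalarTower.algebraMap_eq B F K]
    exact (algebraMap F K).injective.comp hinj
  obtain ⟨θ₁, hθ₁⟩ := Field.exists_primitive_element F K
  obtain ⟨a, b, hb, hab⟩ := hπ θ₁
  have halg : IsAlgebraic B (π b) := by
    have h1 : IsAlgebraic F (π b) := Algebra.IsAlgebraic.isAlgebraic _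
    exact (IsFractionRing.isAlgebraic_iff B F K).2 h1
  obtain ⟨q, hq0, hq⟩ := halg.exists_nonzero_coeff_and_aeval_eq_zero
    (mem_nonZeroDivisors_of_ne_zero hb)
  obtain ⟨θ, hθ⟩ : ∃ θ : A, θ = -(a * (divX q).eval₂ ι b) := ⟨_, rfl⟩
  have hθ2 : π θ = θ₁ * algebraMap B K (q.coeff 0) := by
    have h1 : aeval (π b) q = aeval (π b) (divX q) * π b + algebraMap B K (q.coeff 0) := by
      conv_lhs => rw [← divX_mul_X_add q]
      rw [map_add, map_mul, aeval_X, aeval_C]
    rw [hq] at h1
    rw [hθ, map_neg, map_mul, pi_eval π ι hι, ← hab]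
    have h2 : algebraMap B K (q.coeff 0) = -(aeval (π b) (divX q) * π b) := by
      linear_combination -h1
    rw [h2]
    ring
  have hr : algebraMap B K (q.coeff 0) ≠ 0 := by
    rw [ne_eq, map_eq_zero_iff _ hinjK]
    exact hq0
  have htop : F⟮π θ⟯ = ⊤ := by
    rw [eq_top_iff, ← hθ₁, adjoin_simple_le_iff]
    have h1 : θ₁ = π θ * algebraMap F K ((algebraMap B F (q.coeff 0))⁻¹) := by
      rw [hθ2, map_inv₀, ← IsScalarTower.algebraMap_apply B F K, mul_assoc, mul_inv_cancel₀ hr,
        mul_one]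
    rw [h1]
    exact mul_mem (mem_adjoin_simple_self F _) (IntermediateField.algebraMap_mem _ _)
  have hθint : IsIntegral F (π θ) := Algebra.IsIntegral.isIntegral _
  obtain ⟨c, hc0, P, hP, -⟩ := aeval_clear (B := B) (minpoly F (π θ)) (π θ)
  have hcK : algebraMap B K c ≠ 0 := by
    rw [ne_eq, map_eq_zero_iff _ hinjK]
    exact hc0
  refine ⟨θ, P, ?_, ?_, ?_, ?_⟩
  · rw [pi_eval π ι hι, ← aeval_map_algebraMap F (π θ), hP, map_mul, minpoly.aeval, mul_zero]
  · rw [pi_eval π ι hι, ← aeval_map_algebraMap F (π θ), ← derivative_map, hP, derivative_C_mul,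
      map_mul, aeval_C, ← IsScalarTower.algebraMap_apply B F K]
    exact mul_ne_zero hcK ((Algebra.IsSeparable.isSeparable F (π θ)).aeval_derivative_ne_zero
      (minpoly.aeval _ _))
  · intro w
    have hw : w ∈ F⟮π θ⟯ := by rw [htop]; trivial
    have hw' : w ∈ (F⟮π θ⟯).toSubalgebra := hw
    rw [adjoin_simple_toSubalgebra_of_isAlgebraic hθint.isAlgebraic,
      Algebra.adjoin_singleton_eq_range_aeval] at hw'
    obtain ⟨g, hg⟩ := hw'
    obtain ⟨D, hD, Q, -, hQ⟩ := aeval_clear (B := B) g (π θ)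
    refine ⟨D, Q, hD, ?_⟩
    rw [pi_eval π ι hι, hQ]
    congr 1
    exact hg.symm
  · intro G hG
    rw [pi_eval π ι hι] at hG
    have h1 : minpoly F (π θ) ∣ G.map (algebraMap B F) := by
      apply minpoly.dvd
      rw [aeval_map_algebraMap]
      exact hG
    obtain ⟨W, hW⟩ := h1
    obtain ⟨e, he, W₀, hW₀, -⟩ := aeval_clear (B := B) W (π θ)
    refine ⟨c * e, mul_ne_zero hc0 he, W₀, ?_⟩
    apply map_injective (algebraMap B F) hinj
    rw [Polynomial.map_mul, Polynomial.map_mul, map_C, hP, hW₀, hW, map_mul, C_mul]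
    ring

end Abs

end ZC
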