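import Pool.Agent.Helper25.BD.Data

/-!
# Equations for the points of a variety which is separable over a field of fractions, II
-/

set_option autoImplicit false

namespace ZC

open IntermediateField

section Var

variable {R L K S : Type*} [CommRing R] [IsDomain R] [Field L] [Field K] [Algebra R L]
  [IsFractionRing R L] [Algebra L K] [Algebra R K] [IsScalarTower R L K]

/-- The inclusion of the polynomials in some of the variables. -/
noncomputable def rn (R : Type*) [CommRing R] {S : Type*} (s : Set S) :
    MvPolynomial s R →+* MvPolynomial S R :=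
  (MvPolynomial.rename (Subtype.val : s → S) : MvPolynomial s R →ₐ[R] MvPolynomial S R).toRingHom

omit [IsDomain R] [IsFractionRing R L] in
lemma mem_field {z : S → K} (T : IntermediateField L K) (hT : ∀ n, z n ∈ T)
    (a : MvPolynomial S R) : MvPolynomial.aeval z a ∈ T := by
  induction a using MvPolynomial.induction_on with
  | C r =>
    rw [MvPolynomial.aeval_C, IsScalarTower.algebraMap_apply R L K]
    exact T.algebraMap_mem _
  | add f g hf hg =>
    rw [map_add]
    exact T.add_mem hf hg
  | mul_X f n hf =>
    rw [map_mul, MvPolynomial.aeval_X]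
    exact T.mul_mem hf (hT n)

/-- The elements of the algebra generated by a family are fractions. -/
lemma mem_adjoin_frac {s : Type*} (u : s → K) {x : K}
    (hx : x ∈ Algebra.adjoin L (Set.range u)) :
    ∃ (a : MvPolynomial s R) (r : R), r ≠ 0 ∧ algebraMap R K r * x = MvPolynomial.aeval u a := by
  have hinj : Function.Injective (algebraMap R K) := by
    rw [IsScalarTower.algebraMap_eq R L K]
    exact (algebraMap L K).injective.comp (IsFractionRing.injective R L)
  induction hx using Algebra.adjoin_induction with
  | mem y hy =>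
    obtain ⟨i, rfl⟩ := hy
    exact ⟨MvPolynomial.X i, 1, one_ne_zero, by rw [map_one, one_mul, MvPolynomial.aeval_X]⟩
  | algebraMap l =>
    obtain ⟨a, b, hb, rfl⟩ := IsFractionRing.div_surjective (A := R) l
    refine ⟨MvPolynomial.C a, b, nonZeroDivisors.ne_zero hb, ?_⟩
    have hb' : algebraMap R L b ≠ 0 := by
      rw [ne_eq, map_eq_zero_iff _ (IsFractionRing.injective R L)]
      exact nonZeroDivisors.ne_zero hb
    rw [MvPolynomial.aeval_C, IsScalarTower.algebraMap_apply R L K,
      IsScalarTower.algebraMap_apply R L K, ← map_mul]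
    congr 1
    field_simp
  | add x y _ _ hx hy =>
    obtain ⟨a, r, hr, h1⟩ := hx
    obtain ⟨a', r', hr', h2⟩ := hy
    refine ⟨MvPolynomial.C r' * a + MvPolynomial.C r * a', r * r', mul_ne_zero hr hr', ?_⟩
    rw [map_add, map_mul (MvPolynomial.aeval u), map_mul (MvPolynomial.aeval u),
      MvPolynomial.aeval_C, MvPolynomial.aeval_C, ← h1, ← h2, map_mul]
    ring
  | mul x y _ _ hx hy =>
    obtain ⟨a, r, hr, h1⟩ := hx
    obtain ⟨a', r', hr', h2⟩ := hy
    refine ⟨a * a', r * r', mul_ne_zero hr hr', ?_⟩
    rw [map_mul (MvPolynomial.aeval u), ← h1, ← h2, map_mul]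
    ring

/-- The equations over the ring. -/
theorem exists_data [Finite S] (z : S → K)
    (hz : ∀ w : K, ∃ a b : MvPolynomial S R,
      MvPolynomial.aeval z b ≠ 0 ∧ w * MvPolynomial.aeval z b = MvPolynomial.aeval z a)
    (p : ℕ) (hp : p.Prime) [ExpChar L p]
    (H : ∀ s : Finset K, LinearIndepOn L _root_.id (s : Set K) →
      LinearIndepOn L (· ^ p) (s : Set K)) :
    ∃ (s : Set S) (θ : MvPolynomial S R) (P : Polynomial (MvPolynomial s R)),
      MvPolynomial.aeval z (P.eval₂ (rn R s) θ) = 0 ∧
      MvPolynomial.aeval z (P.derivative.eval₂ (rn R s) θ) ≠ 0 ∧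
      (∀ n : S, ∃ (D : MvPolynomial s R) (Q : Polynomial (MvPolynomial s R)),
        MvPolynomial.aeval z (rn R s D) ≠ 0 ∧
        MvPolynomial.aeval z (rn R s D * MvPolynomial.X n - Q.eval₂ (rn R s) θ) = 0) ∧
      ∀ G : Polynomial (MvPolynomial s R), MvPolynomial.aeval z (G.eval₂ (rn R s) θ) = 0 →
        ∃ E : MvPolynomial s R, MvPolynomial.aeval z (rn R s E) ≠ 0 ∧
          P ∣ Polynomial.C E * G := by
  have hinjR : Function.Injective (algebraMap R K) := by
    rw [IsScalarTower.algebraMap_eq R L K]
    exact (algebraMap L K).injective.comp (IsFractionRing.injective R L)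
  -- the field is generated by the coordinates
  have htop : IntermediateField.adjoin L (Set.range z) = ⊤ := by
    rw [eq_top_iff]
    intro w _
    obtain ⟨a, b, hb, hab⟩ := hz w
    have h1 : ∀ n, z n ∈ IntermediateField.adjoin L (Set.range z) := fun n =>
      subset_adjoin _ _ ⟨n, rfl⟩
    have h2 : w = MvPolynomial.aeval z a / MvPolynomial.aeval z b := by
      rw [eq_div_iff hb, hab]
    rw [h2]
    exact (IntermediateField.adjoin L (Set.range z)).div_mem (mem_field _ h1 a) (mem_field _ h1 b)
  obtain ⟨s, hs, hsep⟩ := exists_sep_basis p hp H z htop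
  -- the subfield generated by the basis
  let F := IntermediateField.adjoin L (z '' s)
  let uF : s → F := fun j => ⟨z j, subset_adjoin _ _ ⟨j, j.2, rfl⟩⟩
  let algF : Algebra (MvPolynomial s R) F :=
    (MvPolynomial.aeval uF : MvPolynomial s R →ₐ[R] F).toRingHom.toAlgebra
  let algK : Algebra (MvPolynomial s R) K :=
    ((algebraMap F K).comp (algebraMap (MvPolynomial s R) F)).toAlgebra
  have tower : IsScalarTower (MvPolynomial s R) F K := IsScalarTower.of_algebraMap_eq fun _ => rfl
  have hmapK : ∀ b : MvPolynomial s R, algebraMap (MvPolynomial s R) K b =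
      MvPolynomial.aeval (fun j : s => z j) b := by
    intro b
    have h0 : ∀ r : R, algebraMap F K (algebraMap R F r) = algebraMap R K r := by
      intro r
      rw [IsScalarTower.algebraMap_apply R L F, IsScalarTower.algebraMap_apply R L K]
      rfl
    have h1 : (algebraMap F K).comp (MvPolynomial.aeval uF : MvPolynomial s R →ₐ[R] F).toRingHom =
        (MvPolynomial.aeval (fun j : s => z j) : MvPolynomial s R →ₐ[R] K).toRingHom := by
      apply MvPolynomial.ringHom_ext
      · intro r
        show algebraMap F K (MvPolynomial.aeval uF (MvPolynomial.C r)) =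
          MvPolynomial.aeval (fun j : s => z j) (MvPolynomial.C r)
        rw [MvPolynomial.aeval_C, MvPolynomial.aeval_C, h0]
      · intro j
        show algebraMap F K (MvPolynomial.aeval uF (MvPolynomial.X j)) =
          MvPolynomial.aeval (fun j : s => z j) (MvPolynomial.X j)
        rw [MvPolynomial.aeval_X, MvPolynomial.aeval_X]
        rfl
    exact congrArg (fun f : MvPolynomial s R →+* K => f b) h1
  have hι : ∀ b : MvPolynomial s R, MvPolynomial.aeval z (rn R s b) =
      algebraMap (MvPolynomial s R) K b := by
    intro b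
    rw [hmapK]
    show MvPolynomial.aeval z (MvPolynomial.rename Subtype.val b) = _
    rw [MvPolynomial.aeval_rename]
    rfl
  have hinj : Function.Injective (algebraMap (MvPolynomial s R) K) := by
    have h1 : AlgebraicIndependent R (fun j : s => z j) :=
      hs.1.restrictScalars (IsFractionRing.injective R L)
    have h2 : ⇑(algebraMap (MvPolynomial s R) K) = ⇑(MvPolynomial.aeval (R := R)
        (fun j : s => z j)) := funext hmapK
    rw [h2]
    exact h1
  have hinjF : Function.Injective (algebraMap (MvPolynomial s R) F) := by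
    intro x y hxy
    apply hinj
    rw [IsScalarTower.algebraMap_apply (MvPolynomial s R) F K,
      IsScalarTower.algebraMap_apply (MvPolynomial s R) F K, hxy]
  have : FaithfulSMul (MvPolynomial s R) F := (faithfulSMul_iff_algebraMap_injective _ _).2 hinjF
  have hfrac : IsFractionRing (MvPolynomial s R) F := by
    apply IsFractionRing.of_field
    rintro ⟨x, hx⟩
    rw [mem_adjoin_iff_div] at hx
    obtain ⟨x1, hx1, x2, hx2, rfl⟩ := hx
    have hr : z '' s = Set.range (fun j : s => z j) := by
      ext w
      simp
    rw [hr] at hx1 hx2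
    obtain ⟨a1, r1, hr1, h1⟩ := mem_adjoin_frac (R := R) _ hx1
    obtain ⟨a2, r2, hr2, h2⟩ := mem_adjoin_frac (R := R) _ hx2
    refine ⟨MvPolynomial.C r2 * a1, MvPolynomial.C r1 * a2, ?_⟩
    apply Subtype.ext
    have h3 : ∀ b : MvPolynomial s R, ((algebraMap (MvPolynomial s R) F b : F) : K) =
      MvPolynomial.aeval (fun j : s => z j) b := hmapK
    rw [IntermediateField.coe_div, h3, h3, map_mul, map_mul, MvPolynomial.aeval_C,
      MvPolynomial.aeval_C, ← h1, ← h2]
    have e1 : algebraMap R K r1 ≠ 0 := by
      rw [ne_eq, map_eq_zero_iff _ hinjR]; exact hr1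
    have e2 : algebraMap R K r2 ≠ 0 := by
      rw [ne_eq, map_eq_zero_iff _ hinjR]; exact hr2
    show x1 / x2 = _
    by_cases hx0 : x2 = 0
    · rw [hx0]
      simp
    · field_simp
  have : FiniteDimensional F K := by
    have h1 : IntermediateField.adjoin F (Set.range z) = ⊤ := by
      rw [eq_top_iff]
      intro w _
      have hw : w ∈ IntermediateField.adjoin L (Set.range z) := by rw [htop]; trivial
      have h2 : IntermediateField.adjoin L (Set.range z) ≤
          (IntermediateField.adjoin F (Set.range z)).restrictScalars L := by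
        rw [adjoin_le_iff]
        intro x hx
        exact subset_adjoin F _ hx
      exact h2 hw
    have h2 : FiniteDimensional F (IntermediateField.adjoin F (Set.range z)) :=
      finiteDimensional_adjoin fun x _ => Algebra.IsIntegral.isIntegral x
    rw [h1] at h2
    exact (topEquiv (F := F) (E := K)).toLinearEquiv.finiteDimensional
  obtain ⟨θ, P, h1, h2, h3, h4⟩ := exists_abs (F := F) (MvPolynomial.aeval z : MvPolynomial S R →ₐ[R] K).toRingHom
    (rn R s) hι hz
  refine ⟨s, θ, P, h1, h2, ?_, ?_⟩
  · intro n
    obtain ⟨D, Q, hD, hQ⟩ := h3 (z n)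
    refine ⟨D, Q, ?_, ?_⟩
    · rw [hι, ne_eq, map_eq_zero_iff _ hinj]
      exact hD
    · rw [map_sub, map_mul, MvPolynomial.aeval_X, hι, hQ]
      exact sub_self _
  · intro G hG
    obtain ⟨E, hE, hd⟩ := h4 G hG
    refine ⟨E, ?_, hd⟩
    rw [hι, ne_eq, map_eq_zero_iff _ hinj]
    exact hE

end Var

end ZC
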