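import Pool.Agent.Helper25.BD.Data2

/-!
# Approximate zeros over a ring with Newton's lemma
-/

set_option autoImplicit false

namespace ZC

open Filter

/-- A ring of characteristic `p` with a prime `t` in which Newton's lemma holds and every element
is a combination of `p`-th powers with coefficients `1, t, ..., t ^ (p - 1)`. -/
structure NewtonRing {R : Type*} [CommRing R] (t : R) (p : ℕ) : Prop where
  prime : Prime t
  sep : ∀ x : R, (∀ m : ℕ, t ^ m ∣ x) → x = 0
  unit : ∀ x : R, ¬ t ∣ x → IsUnit x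
  decomp : ∀ a : R, ∃ b : ℕ → R, a = ∑ e ∈ Finset.range p, t ^ e * b e ^ p
  newton : ∀ (P : Polynomial R) (θ : R) (m₀ m : ℕ), ¬ t ^ m₀ ∣ P.derivative.eval θ →
    2 * m₀ ≤ m → t ^ m ∣ P.eval θ → ∃ θ' : R, P.eval θ' = 0 ∧ t ^ (m - m₀) ∣ θ' - θ

section Val

variable {R : Type*} [CommRing R] [IsDomain R] {t : R}

omit [IsDomain R] in
lemma exists_pow_mul {a : ℕ} {x : R} (h : ¬ t ^ a ∣ x) :
    ∃ k : ℕ, k < a ∧ ∃ x', x = t ^ k * x' ∧ ¬ t ∣ x' := by
  induction a with
  | zero => exact absurd (by rw [pow_zero]; exact one_dvd x) h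
  | succ a ih =>
    by_cases h1 : t ^ a ∣ x
    · obtain ⟨x', rfl⟩ := h1
      refine ⟨a, Nat.lt_succ_self a, x', rfl, fun h2 => h ?_⟩
      rw [pow_succ]
      exact mul_dvd_mul_left _ h2
    · obtain ⟨k, hk, x', h2, h3⟩ := ih h1
      exact ⟨k, hk.trans (Nat.lt_succ_self a), x', h2, h3⟩

lemma pow_dvd_of_mul (ht : Prime t) {a b : ℕ} {x y : R} (h : ¬ t ^ a ∣ x)
    (h' : t ^ (a + b) ∣ x * y) : t ^ b ∣ y := by
  obtain ⟨k, hk, x', rfl, hx'⟩ := exists_pow_mul h
  have h1 : t ^ k * t ^ (a + b - k) ∣ t ^ k * (x' * y) := by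
    rw [← pow_add, ← mul_assoc]
    have : k + (a + b - k) = a + b := by omega
    rw [this]
    exact h'
  have h2 := (mul_dvd_mul_iff_left (pow_ne_zero k ht.ne_zero)).1 h1
  have h3 := ht.pow_dvd_of_dvd_mul_left _ hx' h2
  exact (pow_dvd_pow t (by omega)).trans h3

/-- The terms of `∑ t ^ e h_e ^ p` have different valuations. -/
lemma dvd_of_sum_dvd (ht : Prime t) {p : ℕ} (h : ℕ → R) (m : ℕ)
    (hd : t ^ (p * m) ∣ ∑ e ∈ Finset.range p, t ^ e * h e ^ p) :
    ∀ e, e < p → t ^ m ∣ h e := by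
  induction m with
  | zero => intro e _; rw [pow_zero]; exact one_dvd _
  | succ m ih =>
    have h1 := ih ((pow_dvd_pow t (Nat.mul_le_mul_left p (Nat.le_succ m))).trans hd)
    have h2 : ∀ e, ∃ w, e < p → h e = t ^ m * w := by
      intro e
      by_cases he : e < p
      · obtain ⟨w, hw⟩ := h1 e he
        exact ⟨w, fun _ => hw⟩
      · exact ⟨0, fun h => absurd h he⟩
    choose w hw using h2
    have h3 : ∑ e ∈ Finset.range p, t ^ e * h e ^ p =
        t ^ (p * m) * ∑ e ∈ Finset.range p, t ^ e * w e ^ p := by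
      rw [Finset.mul_sum]
      refine Finset.sum_congr rfl fun e he => ?_
      rw [hw e (Finset.mem_range.1 he), mul_pow, ← pow_mul, mul_comm m p]
      ring
    rw [h3, Nat.mul_succ, pow_add] at hd
    have h4 := (mul_dvd_mul_iff_left (pow_ne_zero (p * m) ht.ne_zero)).1 hd
    have h5 : ∀ e, e < p → t ∣ w e := by
      intro e
      induction e using Nat.strong_induction_on with
      | _ e ihe =>
        intro he
        have hsplit : ∑ e' ∈ Finset.range p, t ^ e' * w e' ^ p =
            (∑ e' ∈ (Finset.range p).erase e, t ^ e' * w e' ^ p) + t ^ e * w e ^ p := by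
          rw [Finset.sum_erase_add _ _ (Finset.mem_range.2 he)]
        have hrest : t ^ (e + 1) ∣ ∑ e' ∈ (Finset.range p).erase e, t ^ e' * w e' ^ p := by
          apply Finset.dvd_sum
          intro e' he'
          obtain ⟨hne, he'p⟩ := Finset.mem_erase.1 he'
          rcases lt_or_gt_of_ne hne with hlt | hgt
          · have h6 := ihe e' hlt (Finset.mem_range.1 he'p)
            refine Dvd.dvd.mul_left ((pow_dvd_pow t (by omega : e + 1 ≤ p)).trans ?_) _
            exact pow_dvd_pow_of_dvd h6 p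
          · exact Dvd.dvd.mul_right (pow_dvd_pow t (by omega)) _
        have hall : t ^ (e + 1) ∣ ∑ e' ∈ Finset.range p, t ^ e' * w e' ^ p :=
          (pow_dvd_pow t (by omega : e + 1 ≤ p)).trans h4
        rw [hsplit] at hall
        have h7 := (dvd_add_right hrest).1 hall
        rw [pow_succ] at h7
        have h8 := (mul_dvd_mul_iff_left (pow_ne_zero e ht.ne_zero)).1 h7
        exact ht.dvd_of_dvd_pow h8
    intro e he
    rw [hw e he, pow_succ]
    exact mul_dvd_mul_left _ (h5 e he)

end Val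

section Germ

variable {R A : Type*} [CommRing R] [IsDomain R] [CommRing A] {t : R} (ht : Prime t)
  (ev : ℕ → A →+* R)

/-- The elements which are divisible by all powers of `t` at almost all indices. -/
def germ (t : R) (ev : ℕ → A →+* R) : Ideal A where
  carrier := {g | ∀ m : ℕ, ∀ᶠ i in (hyperfilter ℕ : Filter ℕ), t ^ m ∣ ev i g}
  add_mem' {a b} ha hb m := by
    filter_upwards [ha m, hb m] with i h1 h2
    rw [map_add]
    exact dvd_add h1 h2
  zero_mem' m := by
    filter_upwards with i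
    rw [map_zero]
    exact dvd_zero _
  smul_mem' c a ha m := by
    filter_upwards [ha m] with i h1
    rw [smul_eq_mul, map_mul]
    exact h1.mul_left _

omit [IsDomain R] in
lemma mem_germ {g : A} : g ∈ germ t ev ↔
    ∀ m : ℕ, ∀ᶠ i in (hyperfilter ℕ : Filter ℕ), t ^ m ∣ ev i g := Iff.rfl

omit [IsDomain R] in
lemma notMem_germ {g : A} : g ∉ germ t ev ↔
    ∃ m : ℕ, ∀ᶠ i in (hyperfilter ℕ : Filter ℕ), ¬ t ^ m ∣ ev i g := by
  rw [mem_germ, not_forall]
  exact exists_congr fun m => Ultrafilter.eventually_not.symm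

include ht in
lemma germ_prime : (germ t ev).IsPrime := by
  refine ⟨?_, ?_⟩
  · rw [Ideal.ne_top_iff_one]
    intro h
    obtain ⟨i, hi⟩ := (h 1).exists
    rw [map_one, pow_one] at hi
    exact ht.not_isUnit (isUnit_of_dvd_one hi)
  · intro x y hxy
    by_cases hx : x ∈ germ t ev
    · exact Or.inl hx
    · right
      obtain ⟨a, ha⟩ := (notMem_germ ev).1 hx
      intro m
      filter_upwards [ha, hxy (a + m)] with i h1 h2
      rw [map_mul] at h2
      exact pow_dvd_of_mul ht h1 h2

end Germ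

end ZC
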