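import Mathlib

/-!
# Newton's lemma by contraction
-/

set_option autoImplicit false

namespace ZC

open Polynomial

section Abs

variable {W : Type*} [CommRing W] {t : W}

/-- Newton's lemma in a ring in which contractions have fixed points. -/
theorem newton_of_contr (hu : ∀ x : W, ¬ t ∣ x → IsUnit x)
    (hc : ∀ G : W → W, (∀ (n : ℕ) (a b : W), t ^ n ∣ a - b → t ^ (n + 1) ∣ G a - G b) →
      ∃ y, G y = y)
    (P : W[X]) (θ : W) (m₀ m : ℕ) (h1 : ¬ t ^ m₀ ∣ P.derivative.eval θ) (h2 : 2 * m₀ ≤ m)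
    (h3 : t ^ m ∣ P.eval θ) : ∃ θ' : W, P.eval θ' = 0 ∧ t ^ (m - m₀) ∣ θ' - θ := by
  -- the derivative
  have hval : ∃ k : ℕ, k < m₀ ∧ ∃ e, P.derivative.eval θ = t ^ k * e ∧ ¬ t ∣ e := by
    have : ∀ (a : ℕ) (x : W), ¬ t ^ a ∣ x → ∃ k : ℕ, k < a ∧ ∃ x', x = t ^ k * x' ∧ ¬ t ∣ x' := by
      intro a
      induction a with
      | zero => intro x h; exact absurd (by rw [pow_zero]; exact one_dvd x) h
      | succ a ih =>
        intro x h
        by_cases h1 : t ^ a ∣ x
        · obtain ⟨x', rfl⟩ := h1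
          refine ⟨a, Nat.lt_succ_self a, x', rfl, fun h2 => h ?_⟩
          rw [pow_succ]
          exact mul_dvd_mul_left _ h2
        · obtain ⟨k, hk, x', h2, h3⟩ := ih x h1
          exact ⟨k, hk.trans (Nat.lt_succ_self a), x', h2, h3⟩
    exact this m₀ _ h1
  obtain ⟨k, hk, e, he, hte⟩ := hval
  obtain ⟨u, hu'⟩ := hu e hte
  obtain ⟨c, hc'⟩ := h3
  obtain ⟨H, hH⟩ : ∃ H : W[X], H = divX (divX (taylor θ P)) := ⟨_, rfl⟩
  have hT : ∀ z : W, P.eval (θ + z) = P.eval θ + z * (P.derivative.eval θ + z * H.eval z) := by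
    intro z
    have e1 : (taylor θ P).eval z = P.eval (θ + z) := by rw [taylor_eval, add_comm]
    have e2 : taylor θ P = divX (taylor θ P) * X + C (P.eval θ) := by
      conv_lhs => rw [← divX_mul_X_add (taylor θ P)]
      rw [taylor_coeff_zero]
    have e3 : divX (taylor θ P) = H * X + C (P.derivative.eval θ) := by
      conv_lhs => rw [← divX_mul_X_add (divX (taylor θ P))]
      rw [← hH, coeff_divX, zero_add, taylor_coeff_one]
    rw [← e1, e2, e3]
    simp only [eval_add, eval_mul, eval_X, eval_C]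
    ring
  obtain ⟨a, ha⟩ : ∃ a, a = m - k := ⟨_, rfl⟩
  obtain ⟨Hn, hHn⟩ : ∃ Hn : W[X], Hn = X ^ 2 * H.comp (C (t ^ a) * X) := ⟨_, rfl⟩
  have hHe : ∀ y : W, Hn.eval y = y ^ 2 * H.eval (t ^ a * y) := by
    intro y
    rw [hHn, eval_mul, eval_pow, eval_X, eval_comp, eval_mul, eval_C, eval_X]
  obtain ⟨y, hy⟩ := hc (fun y => -(↑u⁻¹ * (c + t ^ (a - k) * Hn.eval y))) (by
    intro n x y hxy
    have e1 : -(↑u⁻¹ * (c + t ^ (a - k) * Hn.eval x)) - -(↑u⁻¹ * (c + t ^ (a - k) * Hn.eval y)) =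
        t ^ (a - k) * (Hn.eval x - Hn.eval y) * -↑u⁻¹ := by ring
    rw [e1]
    apply Dvd.dvd.mul_right
    rw [pow_succ, mul_comm (t ^ n) t]
    apply mul_dvd_mul
    · exact dvd_pow_self t (by omega)
    · exact hxy.trans (sub_dvd_eval_sub x y Hn))
  have hy' : e * y = -(c + t ^ (a - k) * Hn.eval y) := by
    have e1 : (u : W) * y = -(c + t ^ (a - k) * Hn.eval y) := by
      conv_lhs => rw [← hy]
      have e2 : (u : W) * ↑u⁻¹ = 1 := Units.mul_inv u
      calc (u : W) * -(↑u⁻¹ * (c + t ^ (a - k) * Hn.eval y)) =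
          -(((u : W) * ↑u⁻¹) * (c + t ^ (a - k) * Hn.eval y)) := by ring
        _ = _ := by rw [e2, one_mul]
    rwa [hu'] at e1
  refine ⟨θ + t ^ a * y, ?_, ?_⟩
  · rw [hT, he, hc']
    have e1 : t ^ m = t ^ a * t ^ k := by
      rw [← pow_add]
      congr 1
      omega
    have e2 : t ^ a = t ^ k * t ^ (a - k) := by
      rw [← pow_add]
      congr 1
      omega
    have e3 : t ^ a * y * (t ^ a * y * H.eval (t ^ a * y)) =
        t ^ a * t ^ k * (t ^ (a - k) * Hn.eval y) := by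
      rw [hHe]
      conv_lhs => rw [show t ^ a * y * (t ^ a * y * H.eval (t ^ a * y)) =
        t ^ a * (t ^ a) * (y ^ 2 * H.eval (t ^ a * y)) by ring]
      conv_lhs => arg 1; arg 2; rw [e2]
      ring
    rw [mul_add, e3, e1]
    linear_combination (t ^ a * t ^ k) * hy'
  · have : θ + t ^ a * y - θ = t ^ a * y := by ring
    rw [this]
    exact (pow_dvd_pow t (by omega)).mul_right _

end Abs

section Ser

variable {F : Type*} [Field F]

/-- Contractions of power series have fixed points. -/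
theorem exists_fixed (G : PowerSeries F → PowerSeries F)
    (hG : ∀ (n : ℕ) (a b : PowerSeries F), PowerSeries.X ^ n ∣ a - b →
      PowerSeries.X ^ (n + 1) ∣ G a - G b) :
    G (PowerSeries.mk fun n => PowerSeries.coeff n (G^[n + 1] 0)) =
      PowerSeries.mk fun n => PowerSeries.coeff n (G^[n + 1] 0) := by
  obtain ⟨y, hy⟩ : ∃ y : PowerSeries F, y = PowerSeries.mk fun n =>
    PowerSeries.coeff n (G^[n + 1] 0) := ⟨_, rfl⟩
  rw [← hy]
  have h1 : ∀ m : ℕ, PowerSeries.X ^ m ∣ G^[m + 1] 0 - G^[m] 0 := by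
    intro m
    induction m with
    | zero => rw [pow_zero]; exact one_dvd _
    | succ m ih =>
      rw [Function.iterate_succ_apply' G (m + 1), Function.iterate_succ_apply' G m]
      rw [Function.iterate_succ_apply' G m] at ih
      exact hG m _ _ ih
  have h2 : ∀ (k n : ℕ), k + 1 ≤ n → PowerSeries.coeff k (G^[n] 0) =
      PowerSeries.coeff k (G^[k + 1] 0) := by
    intro k n hn
    induction n, hn using Nat.le_induction with
    | base => rfl
    | succ n hn ih =>
      have h3 := PowerSeries.X_pow_dvd_iff.1 (h1 n) k (by omega)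
      rw [map_sub, sub_eq_zero] at h3
      rw [h3, ih]
  have h3 : ∀ n : ℕ, PowerSeries.X ^ n ∣ y - G^[n] 0 := by
    intro n
    rw [PowerSeries.X_pow_dvd_iff]
    intro k hk
    rw [map_sub, hy, PowerSeries.coeff_mk, h2 k n (by omega), sub_self]
  have h4 : ∀ n : ℕ, PowerSeries.X ^ (n + 1) ∣ G y - y := by
    intro n
    have h5 := hG n _ _ (h3 n)
    rw [← Function.iterate_succ_apply' G n] at h5
    have h6 := dvd_sub h5 (h3 (n + 1))
    have h7 : G y - G^[n + 1] 0 - (y - G^[n + 1] 0) = G y - y := by ring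
    rwa [h7] at h6
  ext n
  have h5 := PowerSeries.X_pow_dvd_iff.1 (h4 n) n (Nat.lt_succ_self n)
  rw [map_sub, sub_eq_zero] at h5
  exact h5

/-- A subring of the ring of power series which is closed under shifts and inverses. -/
structure Good (W : Subring (PowerSeries F)) : Prop where
  X_mem : PowerSeries.X ∈ W
  shift : ∀ a ∈ W, ∀ n : ℕ, (PowerSeries.mk fun k => PowerSeries.coeff (k + n) a) ∈ W
  inv : ∀ a ∈ W, PowerSeries.constantCoeff a ≠ 0 → a⁻¹ ∈ W

variable {W : Subring (PowerSeries F)} (hW : Good W)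

/-- The variable. -/
noncomputable def Good.X (hW : Good W) : W := ⟨PowerSeries.X, hW.X_mem⟩

include hW in
lemma Good.dvd_iff {n : ℕ} {a : W} :
    hW.X ^ n ∣ a ↔ (PowerSeries.X : PowerSeries F) ^ n ∣ a := by
  constructor
  · rintro ⟨b, rfl⟩
    exact ⟨b, rfl⟩
  · rintro ⟨b, hb⟩
    refine ⟨⟨b, ?_⟩, Subtype.ext hb⟩
    have h1 := hW.shift a a.2 n
    convert h1 using 1
    ext k
    rw [PowerSeries.coeff_mk, hb, mul_comm, PowerSeries.coeff_mul_X_pow]

include hW in
lemma Good.dvd_iff' {a : W} : hW.X ∣ a ↔ PowerSeries.constantCoeff (a : PowerSeries F) = 0 := by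
  have h1 := hW.dvd_iff (n := 1) (a := a)
  rw [pow_one, pow_one] at h1
  rw [h1, PowerSeries.X_dvd_iff]

include hW in
lemma Good.prime : Prime hW.X := by
  refine ⟨?_, ?_, ?_⟩
  · intro h
    exact PowerSeries.X_ne_zero (congrArg Subtype.val h)
  · intro h
    have h1 : hW.X ∣ 1 := h.dvd
    rw [hW.dvd_iff'] at h1
    simp at h1
  · intro a b hab
    rw [hW.dvd_iff'] at hab ⊢
    rw [hW.dvd_iff']
    have h1 : PowerSeries.constantCoeff (a : PowerSeries F) *
        PowerSeries.constantCoeff (b : PowerSeries F) = 0 := by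
      rw [← map_mul]
      exact hab
    exact mul_eq_zero.1 h1

include hW in
lemma Good.sep (x : W) (h : ∀ m : ℕ, hW.X ^ m ∣ x) : x = 0 := by
  apply Subtype.ext
  ext n
  have h1 := PowerSeries.X_pow_dvd_iff.1 (hW.dvd_iff.1 (h (n + 1))) n (Nat.lt_succ_self n)
  rw [h1]
  simp

include hW in
lemma Good.unit (x : W) (h : ¬ hW.X ∣ x) : IsUnit x := by
  rw [hW.dvd_iff'] at h
  refine IsUnit.of_mul_eq_one ⟨(x : PowerSeries F)⁻¹, hW.inv x x.2 h⟩ ?_
  apply Subtype.ext
  exact PowerSeries.mul_inv_cancel _ h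

end Ser

end ZC
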