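import Pool.Agent.Helper25.BD.Abs
import Pool.Agent.Helper25.BD.Newton
import Pool.Agent.Helper99.BD.FC

/-!
# Greenberg's theorem, uniformly in the finite extensions of the residue field
-/

set_option autoImplicit false

namespace ZC

open Polynomial

universe u

section WE

variable {κ Fl : Type u} [Field κ] [Field Fl] [Algebra κ Fl]

/-- The power series with coefficients in a subfield. -/
def WE (E : IntermediateField κ Fl) : Subring (PowerSeries Fl) where
  carrier := {x | ∀ n, PowerSeries.coeff n x ∈ E}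
  mul_mem' := by
    intro x y hx hy n
    rw [PowerSeries.coeff_mul]
    exact sum_mem fun q _ => mul_mem (hx _) (hy _)
  one_mem' := fun n => by
    rw [PowerSeries.coeff_one]
    split_ifs
    · exact one_mem _
    · exact zero_mem _
  add_mem' := by
    intro x y hx hy n
    rw [map_add]
    exact add_mem (hx _) (hy _)
  zero_mem' := fun n => by
    rw [map_zero]
    exact zero_mem _
  neg_mem' := by
    intro x hx n
    rw [map_neg]
    exact neg_mem (hx n)

lemma mem_WE {E : IntermediateField κ Fl} {x : PowerSeries Fl} :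
    x ∈ WE E ↔ ∀ n, PowerSeries.coeff n x ∈ E := Iff.rfl

lemma inv_mem_WE {E : IntermediateField κ Fl} {x : PowerSeries Fl} (hx : x ∈ WE E) :
    x⁻¹ ∈ WE E := by
  intro n
  induction n using Nat.strong_induction_on with
  | _ n ih =>
    rw [PowerSeries.coeff_inv]
    have h0 : PowerSeries.constantCoeff x ∈ E := by
      rw [← PowerSeries.coeff_zero_eq_constantCoeff_apply]
      exact hx 0
    split_ifs with h
    · exact inv_mem h0
    · refine mul_mem (neg_mem (inv_mem h0)) (sum_mem fun q _ => ?_)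
      split_ifs with h2
      · exact mul_mem (hx _) (ih _ h2)
      · exact zero_mem _

lemma good_WE (E : IntermediateField κ Fl) : Good (WE E) where
  X_mem := fun n => by
    rw [PowerSeries.coeff_X]
    split_ifs
    · exact one_mem _
    · exact zero_mem _
  shift := fun a ha n k => by
    rw [PowerSeries.coeff_mk]
    exact ha _
  inv := fun _ ha _ => inv_mem_WE ha

/-- Contractions of the power series with coefficients in a subfield have fixed points. -/
lemma contr_WE (E : IntermediateField κ Fl) (G : WE E → WE E)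
    (hG : ∀ (n : ℕ) (a b : WE E), (good_WE E).X ^ n ∣ a - b →
      (good_WE E).X ^ (n + 1) ∣ G a - G b) : ∃ y, G y = y := by
  classical
  -- the iterates
  obtain ⟨g, hg⟩ : ∃ g : ℕ → WE E, g = fun n => G^[n] 0 := ⟨_, rfl⟩
  have hg1 : ∀ n, g (n + 1) = G (g n) := by
    intro n
    rw [hg]
    exact Function.iterate_succ_apply' G n 0
  have h1 : ∀ m : ℕ, (good_WE E).X ^ m ∣ g (m + 1) - g m := by
    intro m
    induction m with
    | zero => rw [pow_zero]; exact one_dvd _
    | succ m ih =>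
      have h2 := hG m _ _ ih
      rwa [← hg1, ← hg1] at h2
  have hco : ∀ {n : ℕ} {a b : WE E}, (good_WE E).X ^ n ∣ a - b → ∀ k, k < n →
      PowerSeries.coeff k (a : PowerSeries Fl) = PowerSeries.coeff k (b : PowerSeries Fl) := by
    intro n a b hab k hk
    have h2 := PowerSeries.X_pow_dvd_iff.1 ((good_WE E).dvd_iff.1 hab) k hk
    rw [AddSubgroupClass.coe_sub, map_sub, sub_eq_zero] at h2
    exact h2
  have h2 : ∀ (k n : ℕ), k + 1 ≤ n → PowerSeries.coeff k (g n : PowerSeries Fl) =
      PowerSeries.coeff k (g (k + 1) : PowerSeries Fl) := by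
    intro k n hn
    induction n, hn using Nat.le_induction with
    | base => rfl
    | succ n hn ih => rw [hco (h1 n) k (by omega), ih]
  obtain ⟨y, hy⟩ : ∃ y : WE E, (y : PowerSeries Fl) = PowerSeries.mk fun n =>
      PowerSeries.coeff n (g (n + 1) : PowerSeries Fl) := by
    refine ⟨⟨PowerSeries.mk fun n => PowerSeries.coeff n (g (n + 1) : PowerSeries Fl), ?_⟩, rfl⟩
    intro n
    rw [PowerSeries.coeff_mk]
    exact (g (n + 1)).2 n
  have h3 : ∀ n : ℕ, (good_WE E).X ^ n ∣ y - g n := by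
    intro n
    rw [(good_WE E).dvd_iff, PowerSeries.X_pow_dvd_iff]
    intro k hk
    rw [AddSubgroupClass.coe_sub, map_sub, hy, PowerSeries.coeff_mk, h2 k n (by omega), sub_self]
  refine ⟨y, ?_⟩
  apply Subtype.ext
  ext n
  have h5 := hG n _ _ (h3 n)
  rw [← hg1] at h5
  rw [hco h5 n (Nat.lt_succ_self n), hco (h3 (n + 1)) n (Nat.lt_succ_self n)]

/-- Newton's lemma for the power series with coefficients in a subfield. -/
theorem newton_WE (E : IntermediateField κ Fl) (P : (WE E)[X]) (θ : WE E) (m₀ m : ℕ)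
    (h1 : ¬ (good_WE E).X ^ m₀ ∣ P.derivative.eval θ) (h2 : 2 * m₀ ≤ m)
    (h3 : (good_WE E).X ^ m ∣ P.eval θ) :
    ∃ θ' : WE E, P.eval θ' = 0 ∧ (good_WE E).X ^ (m - m₀) ∣ θ' - θ :=
  newton_of_contr (good_WE E).unit (contr_WE E) P θ m₀ m h1 h2 h3

end WE

section FC

variable {κ Fl : Type u} [Field κ] [Field Fl] [Algebra κ Fl]

lemma good_FC : Good (FC κ Fl) where
  X_mem := ⟨⊥, inferInstance, (good_WE ⊥).X_mem⟩
  shift := by
    rintro a ⟨E, hE, ha⟩ n
    exact ⟨E, hE, (good_WE E).shift a ha n⟩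
  inv := by
    rintro a ⟨E, hE, ha⟩ h
    exact ⟨E, hE, (good_WE E).inv a ha h⟩

/-- Finitely many elements have their coefficients in one finite extension. -/
lemma exists_common (s : Finset (PowerSeries Fl)) (hs : ∀ x ∈ s, x ∈ FC κ Fl) :
    ∃ E : IntermediateField κ Fl, FiniteDimensional κ E ∧ ∀ x ∈ s, x ∈ WE E := by
  classical
  induction s using Finset.induction_on with
  | empty => exact ⟨⊥, inferInstance, by simp⟩
  | insert x s hx ih =>
    obtain ⟨E, hE, h1⟩ := ih fun y hy => hs y (Finset.mem_insert_of_mem hy)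
    obtain ⟨E', hE', h2⟩ := hs x (Finset.mem_insert_self _ _)
    refine ⟨E ⊔ E', inferInstance, fun y hy => ?_⟩
    rcases Finset.mem_insert.1 hy with rfl | hy
    · exact fun n => (le_sup_right : E' ≤ E ⊔ E') (h2 n)
    · exact fun n => (le_sup_left : E ≤ E ⊔ E') (h1 y hy n)

/-- The inclusion. -/
noncomputable def inclWE (E : IntermediateField κ Fl) (hE : FiniteDimensional κ E) : WE E →+* FC κ Fl :=
  Subring.inclusion fun _ hx => ⟨E, hE, hx⟩

lemma coe_inclWE (E : IntermediateField κ Fl) (hE : FiniteDimensional κ E) (x : WE E) :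
    ((inclWE E hE x : FC κ Fl) : PowerSeries Fl) = x := rfl

/-- Newton's lemma. -/
theorem newton_FC (P : (FC κ Fl)[X]) (θ : FC κ Fl) (m₀ m : ℕ)
    (h1 : ¬ (good_FC (κ := κ) (Fl := Fl)).X ^ m₀ ∣ P.derivative.eval θ) (h2 : 2 * m₀ ≤ m)
    (h3 : (good_FC (κ := κ) (Fl := Fl)).X ^ m ∣ P.eval θ) :
    ∃ θ' : FC κ Fl, P.eval θ' = 0 ∧ (good_FC (κ := κ) (Fl := Fl)).X ^ (m - m₀) ∣ θ' - θ := by
  classical
  obtain ⟨E, hE, hEs⟩ := exists_common (κ := κ)
    (insert (θ : PowerSeries Fl) ((Finset.range (P.natDegree + 1)).image fun n =>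
      ((P.coeff n : FC κ Fl) : PowerSeries Fl))) (by
    intro x hx
    rcases Finset.mem_insert.1 hx with rfl | hx
    · exact θ.2
    · obtain ⟨n, -, rfl⟩ := Finset.mem_image.1 hx
      exact (P.coeff n).2)
  obtain ⟨j, hj⟩ : ∃ j : WE E →+* FC κ Fl, j = inclWE E hE := ⟨_, rfl⟩
  have hjc : ∀ x : WE E, ((j x : FC κ Fl) : PowerSeries Fl) = x := by
    intro x
    rw [hj]
    rfl
  have hjdvd : ∀ (n : ℕ) (x : WE E), (good_WE E).X ^ n ∣ x ↔
      (good_FC (κ := κ) (Fl := Fl)).X ^ n ∣ j x := by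
    intro n x
    rw [(good_WE E).dvd_iff, good_FC.dvd_iff, hjc]
  obtain ⟨θ₀, hθ₀⟩ : ∃ θ₀ : WE E, j θ₀ = θ :=
    ⟨⟨θ, hEs _ (Finset.mem_insert_self _ _)⟩, Subtype.ext (hjc _)⟩
  obtain ⟨P₀, hP₀⟩ : ∃ P₀ : (WE E)[X], P₀.map j = P := by
    have h4 : P ∈ Polynomial.lifts j := by
      rw [Polynomial.lifts_iff_coeff_lifts]
      intro n
      by_cases hn : n ≤ P.natDegree
      · refine ⟨⟨(P.coeff n : FC κ Fl), hEs _ (Finset.mem_insert_of_mem (Finset.mem_image.2
          ⟨n, Finset.mem_range.2 (by omega), rfl⟩))⟩, Subtype.ext (hjc _)⟩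
      · rw [Polynomial.coeff_eq_zero_of_natDegree_lt (by omega)]
        exact ⟨0, map_zero _⟩
    exact (Polynomial.mem_lifts P).1 h4
  have hev : ∀ (q : (WE E)[X]) (x : WE E), (q.map j).eval (j x) = j (q.eval x) := by
    intro q x
    rw [eval_map, eval₂_at_apply]
  obtain ⟨θ', h4, h5⟩ := newton_WE E P₀ θ₀ m₀ m
    (by
      rw [hjdvd, ← hev, ← derivative_map, hP₀, hθ₀]
      exact h1) h2
    (by
      rw [hjdvd, ← hev, hP₀, hθ₀]
      exact h3)
  refine ⟨j θ', ?_, ?_⟩
  · rw [← hP₀, hev, h4, map_zero]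
  · rw [hjdvd, map_sub, hθ₀] at h5
    exact h5

/-- The coefficients of a `p`-th power. -/
lemma coeff_pow_char (p : ℕ) (hp : p.Prime) [CharP Fl p] (f : PowerSeries Fl) (n : ℕ) :
    PowerSeries.coeff n (f ^ p) =
      if p ∣ n then (PowerSeries.coeff (n / p) f) ^ p else 0 := by
  have : ExpChar Fl p := ExpChar.prime hp
  have h1 : PowerSeries.map (frobenius Fl p) (PowerSeries.expand p hp.ne_zero f) = f ^ p :=
    MvPowerSeries.map_frobenius_expand p hp.ne_zero
  rw [← h1, PowerSeries.coeff_map, PowerSeries.coeff_expand]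
  split_ifs with h
  · rfl
  · exact map_zero _

/-- Every element is a combination of `p`-th powers. -/
theorem decomp_FC [Finite κ] (p : ℕ) (hp : p.Prime) [CharP Fl p] (a : FC κ Fl) :
    ∃ b : ℕ → FC κ Fl, a = ∑ e ∈ Finset.range p,
      (good_FC (κ := κ) (Fl := Fl)).X ^ e * b e ^ p := by
  obtain ⟨a, E, hE, ha⟩ := a
  have hfin : Finite E := Module.finite_of_finite κ
  have hcE : CharP E p := (algebraMap E Fl).charP (algebraMap E Fl).injective p
  have hexp : ExpChar E p := ExpChar.prime hp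
  have hroot : ∀ c : Fl, c ∈ E → ∃ r ∈ E, r ^ p = c := by
    intro c hc
    obtain ⟨r, hr⟩ := (frobeniusEquiv E p).surjective ⟨c, hc⟩
    refine ⟨r, r.2, ?_⟩
    rw [frobeniusEquiv_apply, frobenius_def] at hr
    exact congrArg Subtype.val hr
  choose r hrE hr using fun n => hroot _ (ha n)
  refine ⟨fun e => ⟨PowerSeries.mk fun n => r (p * n + e), E, hE, fun n => by
    rw [PowerSeries.coeff_mk]; exact hrE _⟩, ?_⟩
  apply Subtype.ext
  have h1 : ((∑ e ∈ Finset.range p, (good_FC (κ := κ) (Fl := Fl)).X ^ e *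
      (⟨PowerSeries.mk fun n => r (p * n + e), E, hE, fun n => by
        rw [PowerSeries.coeff_mk]; exact hrE _⟩ : FC κ Fl) ^ p : FC κ Fl) : PowerSeries Fl) =
      ∑ e ∈ Finset.range p, (PowerSeries.X : PowerSeries Fl) ^ e *
        (PowerSeries.mk fun n => r (p * n + e)) ^ p := by
    rw [AddSubmonoidClass.coe_finsetSum]
    rfl
  rw [h1]
  ext n
  rw [map_sum]
  have h2 : ∀ e ∈ Finset.range p, PowerSeries.coeff n ((PowerSeries.X : PowerSeries Fl) ^ e *
      (PowerSeries.mk fun n => r (p * n + e)) ^ p) = if e = n % p then PowerSeries.coeff n a else 0 := by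
    intro e he
    have hep := Finset.mem_range.1 he
    rw [PowerSeries.coeff_X_pow_mul', coeff_pow_char p hp, PowerSeries.coeff_mk]
    by_cases hen : e = n % p
    · have h3 : e ≤ n := by rw [hen]; exact Nat.mod_le _ _
      have h4 : p ∣ n - e := by rw [hen]; exact Nat.dvd_sub_mod n
      rw [if_pos h3, if_pos h4, if_pos hen, Nat.mul_div_cancel' h4, Nat.sub_add_cancel h3, hr]
    · rw [if_neg hen]
      split_ifs with h3 h4
      · exfalso
        apply hen
        obtain ⟨q, hq⟩ := h4
        have : n = e + p * q := by omega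
        rw [this, Nat.add_mul_mod_self_left, Nat.mod_eq_of_lt hep]
      · rfl
      · rfl
  rw [Finset.sum_congr rfl h2, Finset.sum_ite_eq' (Finset.range p) (n % p)]
  rw [if_pos (Finset.mem_range.2 (Nat.mod_lt _ hp.pos))]

theorem newtonRing_FC [Finite κ] (p : ℕ) (hp : p.Prime) [CharP Fl p] :
    NewtonRing (good_FC (κ := κ) (Fl := Fl)).X p where
  prime := good_FC.prime
  sep := good_FC.sep
  unit := good_FC.unit
  decomp := decomp_FC p hp
  newton := newton_FC

variable (κ Fl) in
/-- **Greenberg's theorem**, uniformly in the finite extensions of the finite field `κ`. -/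
theorem greenberg [Finite κ] : Greenberg κ Fl := by
  intro I S _ _ f hf x hx h c
  obtain ⟨p, hcp⟩ := CharP.exists κ
  have hp : p.Prime := by
    rcases CharP.char_is_prime_or_zero κ p with h | h
    · exact h
    · subst h
      have : CharZero κ := CharP.charP_to_charZero κ
      exact absurd (inferInstance : Finite κ) (not_finite_iff_infinite.2 (Infinite.of_injective _
        (Nat.cast_injective (R := κ))))
  have hcF : CharP Fl p := charP_of_injective_algebraMap (algebraMap κ Fl).injective p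
  have hcP : CharP (PowerSeries Fl) p :=
    charP_of_injective_ringHom (f := PowerSeries.C (R := Fl)) PowerSeries.C_injective p
  have hcFC : CharP (FC κ Fl) p :=
    (FC κ Fl).subtype.charP (FC κ Fl).subtype_injective p
  obtain ⟨j, hj⟩ : ∃ j : FC κ Fl →+* PowerSeries Fl, j = (FC κ Fl).subtype := ⟨_, rfl⟩
  have hjc : ∀ y : FC κ Fl, j y = (y : PowerSeries Fl) := by intro y; rw [hj]; rfl
  have hlift : ∀ a, ∃ g : MvPolynomial S (FC κ Fl), MvPolynomial.map j g = f a := by
    intro a
    have h1 : f a ∈ Set.range (MvPolynomial.map (σ := S) j) := by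
      rw [MvPolynomial.mem_range_map_iff_coeffs_subset]
      intro c hc
      obtain ⟨m, -, rfl⟩ := MvPolynomial.mem_coeffs_iff.1 (Finset.mem_coe.1 hc)
      exact ⟨⟨_, hf a m⟩, hjc _⟩
    exact h1
  choose g hg using hlift
  have hev : ∀ (a : I) (y : S → FC κ Fl), MvPolynomial.eval (fun s => (y s : PowerSeries Fl)) (f a) =
      (MvPolynomial.eval y (g a) : FC κ Fl) := by
    intro a y
    rw [← hg a, MvPolynomial.eval_map, ← hjc]
    have h1 := MvPolynomial.eval₂_comp_left j (RingHom.id (FC κ Fl)) y (g a)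
    rw [RingHom.comp_id] at h1
    have h2 : j ∘ y = fun s => (y s : PowerSeries Fl) := funext fun s => hjc _
    rw [h2] at h1
    exact h1.symm
  obtain ⟨i, hi, y, hy1, hy2⟩ := greenberg_abs (newtonRing_FC (κ := κ) (Fl := Fl) p hp) hp g
    (fun i s => ⟨x i s, hx i s⟩) (by
      intro i a
      rw [good_FC.dvd_iff, ← hev]
      exact h i a) c
  refine ⟨i, hi, fun s => y s, fun s => (y s).2, ?_, ?_⟩
  · intro a
    rw [hev, hy1]
    rfl
  · intro s
    have h1 := good_FC.dvd_iff.1 (hy2 s)
    exact h1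

end FC

end ZC
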