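import Mathlib
import Pool.Agent.Helper25.BD.ChainBasic

/-!
# Chains over power series: approximate zeros

`chain_approx`: the hypothesis `UP` one level below gives zeros modulo arbitrary powers, with
polynomial coordinates.
-/

set_option autoImplicit false

open MvPolynomial

namespace ZC

universe u v

section generic

variable {F : Type u} [Field F] {σ τ Γ : Type} [AddCommMonoid Γ]

/-- all coefficients are homogeneous of degree `δ` -/
def PHom (w : τ → Γ) (δ : Γ) (P : PowerSeries (MvPolynomial τ F)) : Prop :=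
  ∀ k, IsWeightedHomogeneous w (PowerSeries.coeff k P) δ

lemma PHom.zero (w : τ → Γ) (δ : Γ) : PHom w δ (0 : PowerSeries (MvPolynomial τ F)) := by
  intro k
  rw [map_zero]
  exact isWeightedHomogeneous_zero _ _ _

lemma PHom.add {w : τ → Γ} {δ : Γ} {P Q : PowerSeries (MvPolynomial τ F)}
    (h : PHom w δ P) (h' : PHom w δ Q) : PHom w δ (P + Q) := by
  intro k
  rw [map_add]
  exact (h k).add (h' k)

lemma PHom.sum {κ : Type*} {w : τ → Γ} {δ : Γ} (s : Finset κ)
    (P : κ → PowerSeries (MvPolynomial τ F)) (h : ∀ i ∈ s, PHom w δ (P i)) :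
    PHom w δ (∑ i ∈ s, P i) :=
  Finset.sum_induction _ (PHom w δ) (fun _ _ => PHom.add) (PHom.zero w δ) h

lemma PHom.mul {w : τ → Γ} {δ ε : Γ} {P Q : PowerSeries (MvPolynomial τ F)}
    (h : PHom w δ P) (h' : PHom w ε Q) : PHom w (δ + ε) (P * Q) := by
  intro k
  rw [PowerSeries.coeff_mul]
  exact IsWeightedHomogeneous.sum _ _ _ fun i _ => (h _).mul (h' _)

lemma PHom.one (w : τ → Γ) : PHom w 0 (1 : PowerSeries (MvPolynomial τ F)) := by
  intro k
  rw [PowerSeries.coeff_one]
  split_ifs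
  · exact isWeightedHomogeneous_one _ _
  · exact isWeightedHomogeneous_zero _ _ _

lemma PHom.pow {w : τ → Γ} {δ : Γ} {P : PowerSeries (MvPolynomial τ F)}
    (h : PHom w δ P) (n : ℕ) : PHom w (n • δ) (P ^ n) := by
  induction n with
  | zero =>
    rw [zero_smul, pow_zero]
    exact PHom.one w
  | succ n ih =>
    rw [succ_nsmul, pow_succ]
    exact ih.mul h

lemma PHom.const (w : τ → Γ) (p : PowerSeries F) :
    PHom w 0 (PowerSeries.map (C : F →+* MvPolynomial τ F) p) := by
  intro k
  rw [PowerSeries.coeff_map]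
  exact isWeightedHomogeneous_C _ _

lemma PHom.CX_mul (w : τ → Γ) (s : τ) (n : ℕ) :
    PHom w (w s) (PowerSeries.C (X s) * PowerSeries.X ^ n : PowerSeries (MvPolynomial τ F)) := by
  intro k
  rw [PowerSeries.coeff_C_mul, PowerSeries.coeff_X_pow]
  split_ifs
  · rw [mul_one]
    exact isWeightedHomogeneous_X F w s
  · rw [mul_zero]
    exact isWeightedHomogeneous_zero _ _ _

lemma PHom.prod {w : σ → Γ} {w' : τ → Γ} {G : σ → PowerSeries (MvPolynomial τ F)}
    (hG : ∀ s, PHom w' (w s) (G s)) (d : σ → ℕ) (S : Finset σ) :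
    PHom w' (∑ s ∈ S, d s • w s) (∏ s ∈ S, G s ^ d s) := by
  classical
  induction S using Finset.induction_on with
  | empty =>
    rw [Finset.sum_empty, Finset.prod_empty]
    exact PHom.one _
  | insert s S hs ih =>
    rw [Finset.sum_insert hs, Finset.prod_insert hs]
    exact ((hG s).pow _).mul ih

/-- the value at power series of polynomials -/
noncomputable def psubst (G : σ → PowerSeries (MvPolynomial τ F))
    (f : MvPolynomial σ (PowerSeries F)) : PowerSeries (MvPolynomial τ F) :=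
  eval₂ (PowerSeries.map (C : F →+* MvPolynomial τ F)) G f

lemma phom_psubst {w : σ → Γ} {w' : τ → Γ} {G : σ → PowerSeries (MvPolynomial τ F)}
    (hG : ∀ s, PHom w' (w s) (G s)) {f : MvPolynomial σ (PowerSeries F)} {δ : Γ}
    (hf : IsWeightedHomogeneous w f δ) : PHom w' δ (psubst G f) := by
  unfold psubst
  rw [eval₂_eq]
  refine PHom.sum _ _ fun d hd => ?_
  have h1 := (PHom.const w' (coeff d f)).mul (PHom.prod hG d d.support)
  have h2 : ∑ s ∈ d.support, d s • w s = δ := by
    have h3 := hf (mem_support_iff.mp hd)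
    rw [Finsupp.weight_apply] at h3
    exact h3
  rw [h2, zero_add] at h1
  exact h1

lemma map_psubst (G : σ → PowerSeries (MvPolynomial τ F)) (f : MvPolynomial σ (PowerSeries F))
    (a : τ → F) : PowerSeries.map (eval a) (psubst G f) =
      eval (fun s => PowerSeries.map (eval a) (G s)) f := by
  unfold psubst
  rw [hom_eval₂]
  have h1 : (PowerSeries.map (eval a)).comp
      (PowerSeries.map (C : F →+* MvPolynomial τ F)) = RingHom.id _ := by
    ext p n
    simp
  rw [h1]
  rfl

end generic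

section chain

variable {F : Type u} [Field F]

/-- the polynomial with given coefficients -/
noncomputable def polyOf (S : ℕ) (c : Fin (S + 1) → F) : Polynomial F :=
  ∑ q : Fin (S + 1), Polynomial.C (c q) * Polynomial.X ^ (q : ℕ)

lemma natDegree_polyOf (S : ℕ) (c : Fin (S + 1) → F) : (polyOf S c).natDegree ≤ S := by
  refine Polynomial.natDegree_sum_le_of_forall_le _ _ fun l _ => ?_
  exact (Polynomial.natDegree_C_mul_X_pow_le _ _).trans (Nat.lt_succ_iff.mp l.2)

lemma coeff_polyOf (S : ℕ) (c : Fin (S + 1) → F) (q : Fin (S + 1)) :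
    (polyOf S c).coeff q = c q := by
  unfold polyOf
  rw [Polynomial.finsetSum_coeff, Finset.sum_eq_single q]
  · rw [Polynomial.coeff_C_mul_X_pow, if_pos rfl]
  · intro l' _ hl'
    rw [Polynomial.coeff_C_mul_X_pow, if_neg fun h => hl' (Fin.ext h.symm)]
  · intro h
    exact absurd (Finset.mem_univ _) h

lemma polyOf_ne_zero (S : ℕ) {c : Fin (S + 1) → F} {q : Fin (S + 1)} (h : c q ≠ 0) :
    polyOf S c ≠ 0 := by
  intro h0
  apply h
  rw [← coeff_polyOf S c q, h0, Polynomial.coeff_zero]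

lemma coe_polyOf (S : ℕ) (c : Fin (S + 1) → F) : (polyOf S c : PowerSeries F) =
    ∑ q : Fin (S + 1), PowerSeries.C (c q) * PowerSeries.X ^ (q : ℕ) := by
  unfold polyOf
  rw [← Polynomial.coeToPowerSeries.ringHom_apply, map_sum]
  simp

variable {D N th : ℕ}

/-- the unknowns with unknown coefficients -/
noncomputable def cgen (F : Type u) [Field F] (S : ℕ) : CVar D N th →
    PowerSeries (MvPolynomial (CVar D (N * (S + 1)) (th * (S + 1))) F)
  | Sum.inl (k, i) => ∑ q : Fin (S + 1),
      PowerSeries.C (X (Sum.inl (k, finProdFinEquiv (i, q)))) * PowerSeries.X ^ (q : ℕ)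
  | Sum.inr (Sum.inl k) => PowerSeries.C (X (Sum.inr (Sum.inl k))) * PowerSeries.X ^ 0
  | Sum.inr (Sum.inr i) => ∑ q : Fin (S + 1),
      PowerSeries.C (X (Sum.inr (Sum.inr (finProdFinEquiv (i, q))))) * PowerSeries.X ^ (q : ℕ)

/-- the point with polynomial coordinates -/
noncomputable def cpt (S : ℕ) (a : CVar D (N * (S + 1)) (th * (S + 1)) → F) :
    CVar D N th → Polynomial F
  | Sum.inl (k, i) => polyOf S fun q => a (Sum.inl (k, finProdFinEquiv (i, q)))
  | Sum.inr (Sum.inl k) => Polynomial.C (a (Sum.inr (Sum.inl k)))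
  | Sum.inr (Sum.inr i) => polyOf S fun q => a (Sum.inr (Sum.inr (finProdFinEquiv (i, q))))

lemma phom_cgen (S : ℕ) (s : CVar D N th) : PHom wt (wt s) (cgen F S s) := by
  rcases s with ⟨k, i⟩ | k | i
  · exact PHom.sum _ _ fun q _ => PHom.CX_mul wt (Sum.inl (k, finProdFinEquiv (i, q))) q
  · exact PHom.CX_mul wt (Sum.inr (Sum.inl k)) 0
  · exact PHom.sum _ _ fun q _ => PHom.CX_mul wt (Sum.inr (Sum.inr (finProdFinEquiv (i, q)))) q

lemma map_cgen (S : ℕ) (a : CVar D (N * (S + 1)) (th * (S + 1)) → F) (s : CVar D N th) :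
    PowerSeries.map (eval a) (cgen F S s) = (cpt S a s : PowerSeries F) := by
  rcases s with ⟨k, i⟩ | k | i
  · simp only [cgen, cpt]
    rw [coe_polyOf, map_sum]
    simp
  · simp only [cgen, cpt]
    simp
  · simp only [cgen, cpt]
    rw [coe_polyOf, map_sum]
    simp

lemma natDegree_cpt (S : ℕ) (a : CVar D (N * (S + 1)) (th * (S + 1)) → F) (s : CVar D N th) :
    (cpt S a s).natDegree ≤ S := by
  rcases s with ⟨k, i⟩ | k | i
  · exact natDegree_polyOf _ _
  · simp only [cpt]
    rw [Polynomial.natDegree_C]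
    exact Nat.zero_le _
  · exact natDegree_polyOf _ _

lemma natDegree_cpt_inl (S : ℕ) (a : CVar D (N * (S + 1)) (th * (S + 1)) → F)
    (k : Fin (D - 1)) :
    (cpt S a (Sum.inr (Sum.inl k) : CVar D N th)).natDegree = 0 :=
  Polynomial.natDegree_C _

lemma stable_cpt (S : ℕ) {a : CVar D (N * (S + 1)) (th * (S + 1)) → F} (h : Stable a) :
    Stable (cpt (N := N) (th := th) S a) := by
  intro k hk hk'
  obtain ⟨s, hs, hs'⟩ := h k hk hk'
  rcases s with ⟨k, i⟩ | k | i
  · refine ⟨Sum.inl (k, (finProdFinEquiv.symm i).1), hs,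
      polyOf_ne_zero S (q := (finProdFinEquiv.symm i).2) ?_⟩
    rw [Prod.mk.eta, Equiv.apply_symm_apply]
    exact hs'
  · exact ⟨Sum.inr (Sum.inl k), hs, Polynomial.C_ne_zero.2 hs'⟩
  · refine ⟨Sum.inr (Sum.inr (finProdFinEquiv.symm i).1), hs,
      polyOf_ne_zero S (q := (finProdFinEquiv.symm i).2) ?_⟩
    rw [Prod.mk.eta, Equiv.apply_symm_apply]
    exact hs'

/-- **approximate zeros with polynomial coordinates** -/
theorem chain_approx {r : ℕ} {d E : Fin r → ℕ} (h : UP D N th d E F)
    (f : (a : Fin r) → ℕ → Fin (E a) → MvPolynomial (CVar D N th) (PowerSeries F))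
    (hf : ∀ a j i, 0 < j → j < d a * (D + 1) →
      IsWeightedHomogeneous wt (f a j i) (dg D (d a) j)) (T : ℕ) :
    ∃ (S : ℕ) (x : CVar D N th → Polynomial F), Stable x ∧ (∀ s, (x s).natDegree ≤ S) ∧
      (∀ k, (x (Sum.inr (Sum.inl k))).natDegree = 0) ∧
      ∀ a j i, 0 < j → j < d a * (D + 1) → (PowerSeries.X : PowerSeries F) ^ (d a * S + T) ∣
        eval (fun s => (x s : PowerSeries F)) (f a j i) := by
  obtain ⟨S, hS⟩ := h T
  obtain ⟨a, ha, ha'⟩ := hS
    (fun a j i => PowerSeries.coeff ((finProdFinEquiv.symm i).2 : ℕ)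
      (psubst (cgen F S) (f a j (finProdFinEquiv.symm i).1)))
    (fun a j i h0 h1 => phom_psubst (phom_cgen S) (hf a j _ h0 h1) _)
  refine ⟨S, cpt S a, stable_cpt S ha, natDegree_cpt S a, natDegree_cpt_inl S a,
    fun b j i h0 h1 => ?_⟩
  have h2 : (fun s => (cpt S a s : PowerSeries F)) =
      fun s => PowerSeries.map (eval a) (cgen (N := N) (th := th) F S s) :=
    funext fun s => (map_cgen S a s).symm
  rw [h2, ← map_psubst, PowerSeries.X_pow_dvd_iff]
  intro m hm
  rw [PowerSeries.coeff_map]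
  have h3 := ha' b j (finProdFinEquiv (i, ⟨m, hm⟩)) h0 h1
  rw [Equiv.symm_apply_apply] at h3
  exact h3

end chain

end ZC
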