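import Mathlib
import Pool.Agent.Helper25.BD.ChainBasic
import Pool.Agent.Helper25.BD.Newton

/-!
# Chains over power series: normalisation

A stable point with polynomial coordinates is multiplied by a one-parameter subgroup so that in
every level some coordinate is not divisible by the square of the variable.
-/

set_option autoImplicit false

open MvPolynomial

namespace ZC

universe u v

section rescale

variable {F : Type u} [Field F] (L : Type v) [Field L] [Algebra (PowerSeries F) L]
  [IsFractionRing (PowerSeries F) L]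

/-- the variable in the field of fractions -/
noncomputable def tL (L : Type v) [Field L] {F : Type u} [Field F] [Algebra (PowerSeries F) L] :
    L := algebraMap (PowerSeries F) L PowerSeries.X

include L in
lemma tL_ne_zero : tL L (F := F) ≠ 0 := by
  unfold tL
  intro h
  exact PowerSeries.X_ne_zero (R := F)
    (IsFractionRing.injective (PowerSeries F) L (h.trans (map_zero _).symm))

/-- divisibility -/
lemma dvd_of_zpow {a b : PowerSeries F} {n : ℕ} {z : ℤ} (hz : (n : ℤ) ≤ z)
    (h : algebraMap (PowerSeries F) L a = tL L (F := F) ^ z * algebraMap (PowerSeries F) L b) :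
    (PowerSeries.X : PowerSeries F) ^ n ∣ a := by
  obtain ⟨m, hm⟩ := Int.eq_ofNat_of_zero_le (sub_nonneg.2 hz)
  refine ⟨PowerSeries.X ^ m * b, IsFractionRing.injective (PowerSeries F) L ?_⟩
  rw [h, map_mul, map_mul, map_pow, map_pow, ← mul_assoc]
  congr 1
  have h1 : z = ((n + m : ℕ) : ℤ) := by
    push_cast
    linarith
  rw [h1, zpow_natCast, pow_add]
  rfl

/-- the values at a rescaled point -/
lemma eval_rescale {σ Γ : Type} [AddCommMonoid Γ] (pr : Γ →+ ℤ) {w : σ → Γ} {δ : Γ}
    {f : MvPolynomial σ (PowerSeries F)} (hf : IsWeightedHomogeneous w f δ)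
    {x x' : σ → PowerSeries F}
    (hx : ∀ s, algebraMap (PowerSeries F) L (x s) =
      tL L (F := F) ^ (pr (w s)) * algebraMap (PowerSeries F) L (x' s)) :
    algebraMap (PowerSeries F) L (eval x f) =
      tL L (F := F) ^ (pr δ) * algebraMap (PowerSeries F) L (eval x' f) := by
  classical
  rw [eval_eq, eval_eq, map_sum, map_sum, Finset.mul_sum]
  refine Finset.sum_congr rfl fun d hd => ?_
  rw [map_mul, map_mul, map_prod, map_prod, mul_left_comm]
  congr 1
  have h1 : ∑ s ∈ d.support, d s • w s = δ := by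
    have h3 := hf (mem_support_iff.mp hd)
    rw [Finsupp.weight_apply] at h3
    exact h3
  rw [← h1, map_sum]
  have h2 : ∀ S : Finset σ, ∏ s ∈ S, algebraMap (PowerSeries F) L (x s ^ d s) =
      tL L (F := F) ^ (∑ s ∈ S, pr (d s • w s)) *
        ∏ s ∈ S, algebraMap (PowerSeries F) L (x' s ^ d s) := by
    intro S
    induction S using Finset.induction_on with
    | empty => simp
    | insert s S hs ih =>
      rw [Finset.prod_insert hs, Finset.prod_insert hs, Finset.sum_insert hs, ih,
        zpow_add₀ (tL_ne_zero L), map_pow, map_pow, hx s, mul_pow, map_nsmul, ← zpow_natCast,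
        ← zpow_mul, nsmul_eq_mul, mul_comm (pr (w s))]
      ring
  exact h2 _

/-- the rescaled coordinate -/
lemma exists_rescaled {W : Subring (PowerSeries F)} (hW : Good W) {x : PowerSeries F}
    (hx : x ∈ W) {p : ℤ} (hp : (PowerSeries.X : PowerSeries F) ^ p.toNat ∣ x) :
    ∃ x' : PowerSeries F, x' ∈ W ∧ algebraMap (PowerSeries F) L x =
      tL L (F := F) ^ p * algebraMap (PowerSeries F) L x' := by
  rcases le_total 0 p with h0 | h0
  · have h1 : hW.X ^ p.toNat ∣ (⟨x, hx⟩ : W) := hW.dvd_iff.2 hp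
    obtain ⟨y, hy⟩ := h1
    refine ⟨y, y.2, ?_⟩
    have h2 : x = PowerSeries.X ^ p.toNat * (y : PowerSeries F) := congrArg Subtype.val hy
    conv_rhs => rw [← Int.toNat_of_nonneg h0]
    rw [zpow_natCast, h2, map_mul, map_pow]
    rfl
  · refine ⟨PowerSeries.X ^ (-p).toNat * x, mul_mem (pow_mem hW.X_mem _) hx, ?_⟩
    rw [map_mul, map_pow, ← mul_assoc]
    have h1 : tL L (F := F) ^ p * algebraMap (PowerSeries F) L PowerSeries.X ^ (-p).toNat = 1 := by
      rw [← zpow_natCast, Int.toNat_of_nonneg (by linarith)]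
      change tL L (F := F) ^ p * tL L (F := F) ^ (-p) = 1
      rw [← zpow_add₀ (tL_ne_zero L), add_neg_cancel, zpow_zero]
    rw [h1, one_mul]

end rescale

section maximum

variable {F : Type u} [Field F] {D N th : ℕ}

lemma le_natDegree_of_dvd {P : Polynomial F} {n : ℕ} (hP : P ≠ 0)
    (h : (PowerSeries.X : PowerSeries F) ^ n ∣ (P : PowerSeries F)) : n ≤ P.natDegree := by
  by_contra hn
  push Not at hn
  apply hP
  rw [← Polynomial.leadingCoeff_eq_zero]
  rw [PowerSeries.X_pow_dvd_iff] at h
  have h1 := h _ hn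
  rwa [Polynomial.coeff_coe] at h1

/-- **the maximum principle** -/
theorem lamZ_le {S : ℕ} {x : CVar D N th → Polynomial F} (hst : Stable x)
    (hdeg : ∀ s, (x s).natDegree ≤ S) (hc : ∀ k, (x (Sum.inr (Sum.inl k))).natDegree = 0)
    {la : Fin D → ℤ}
    (hla : ∀ s, (PowerSeries.X : PowerSeries F) ^ (pairZ la (wt s)).toNat ∣
      (x s : PowerSeries F)) (k : ℕ) : lamZ la k ≤ S := by
  by_contra hk
  push Not at hk
  -- a maximum
  have hk1 : 1 ≤ k := by
    rcases Nat.eq_zero_or_pos k with h | h
    · rw [h, lamZ_zero] at hk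
      exact absurd hk (not_lt.2 (by positivity))
    · exact h
  have hkD : k ≤ D := by
    by_contra h
    push Not at h
    rw [lamZ_of_lt la h] at hk
    exact absurd hk (not_lt.2 (by positivity))
  obtain ⟨m, hm, hmax⟩ := Finset.exists_max_image (Finset.Icc 1 D) (lamZ la)
    ⟨k, Finset.mem_Icc.2 ⟨hk1, hkD⟩⟩
  have hS : (S : ℤ) < lamZ la m := hk.trans_le (hmax k (Finset.mem_Icc.2 ⟨hk1, hkD⟩))
  have hS0 : (0 : ℤ) ≤ S := by positivity
  have hmax' : ∀ j, lamZ la j ≤ lamZ la m := by
    intro j
    by_cases hj : 1 ≤ j ∧ j ≤ D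
    · exact hmax j (Finset.mem_Icc.2 hj)
    · have h0 : lamZ la j = 0 := by
        rcases Nat.eq_zero_or_pos j with h | h
        · rw [h, lamZ_zero]
        · exact lamZ_of_lt la (by
            by_contra h'
            exact hj ⟨h, by omega⟩)
      rw [h0]
      linarith
  have hex : ∃ m', lamZ la m' = lamZ la m := ⟨m, rfl⟩
  set q := Nat.find hex with hq
  have hq1 : lamZ la q = lamZ la m := Nat.find_spec hex
  have hq0 : 1 ≤ q := by
    rcases Nat.eq_zero_or_pos q with h | h
    · rw [h, lamZ_zero] at hq1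
      linarith
    · exact h
  have hqD : q ≤ D := by
    by_contra h
    push Not at h
    rw [lamZ_of_lt la h] at hq1
    linarith
  have hprev : lamZ la (q - 1) < lamZ la m := by
    refine lt_of_le_of_ne (hmax' _) ?_
    exact Nat.find_min hex (m := q - 1) (by omega)
  have hnext := hmax' (q + 1)
  obtain ⟨s, hs, hs'⟩ := hst q hq0 hqD
  have hle := le_natDegree_of_dvd hs' (hla s)
  rcases s with ⟨j, i⟩ | j | i
  · have h1 : pairZ la (wt (Sum.inl (j, i) : CVar D N th)) = lamZ la q := by
      have : wt (Sum.inl (j, i) : CVar D N th) = ep D q := by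
        simp only [lev] at hs
        simp only [wt, hs]
      rw [this]
      rfl
    rw [h1] at hle
    have h2 := hle.trans (hdeg _)
    have h3 := Int.self_le_toNat (lamZ la q)
    have h4 : ((lamZ la q).toNat : ℤ) ≤ S := by exact_mod_cast h2
    linarith
  · have h1 : pairZ la (wt (Sum.inr (Sum.inl j) : CVar D N th)) =
        2 * lamZ la q - lamZ la (q - 1) - lamZ la (q + 1) := by
      have : wt (Sum.inr (Sum.inl j) : CVar D N th) = al D q := by
        simp only [lev] at hs
        simp only [wt, hs]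
      rw [this, pairZ_al]
    rw [h1, hc] at hle
    have h3 := Int.self_le_toNat (2 * lamZ la q - lamZ la (q - 1) - lamZ la (q + 1))
    have h4 : ((2 * lamZ la q - lamZ la (q - 1) - lamZ la (q + 1)).toNat : ℤ) ≤ 0 := by
      exact_mod_cast hle
    linarith
  · have hqD' : q = D := by
      simp only [lev] at hs
      exact hs.symm
    have h1 : pairZ la (wt (Sum.inr (Sum.inr i) : CVar D N th)) =
        2 * lamZ la q - lamZ la (q - 1) - lamZ la (q + 1) := by
      have : wt (Sum.inr (Sum.inr i) : CVar D N th) = al D q := by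
        simp only [wt]
        rw [hqD']
      rw [this, pairZ_al]
    have h0 : lamZ la (q + 1) = 0 := lamZ_of_lt la (by omega)
    rw [h1] at hle
    have h2 := hle.trans (hdeg _)
    have h3 := Int.self_le_toNat (2 * lamZ la q - lamZ la (q - 1) - lamZ la (q + 1))
    have h4 : ((2 * lamZ la q - lamZ la (q - 1) - lamZ la (q + 1)).toNat : ℤ) ≤ S := by
      exact_mod_cast h2
    linarith

/-- **normalisation**: an integral vector with all coordinates integral, which is maximal -/
theorem exists_max_la {S : ℕ} {x : CVar D N th → Polynomial F} (hst : Stable x)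
    (hdeg : ∀ s, (x s).natDegree ≤ S) (hc : ∀ k, (x (Sum.inr (Sum.inl k))).natDegree = 0) :
    ∃ la : Fin D → ℤ, (∀ s, (PowerSeries.X : PowerSeries F) ^ (pairZ la (wt s)).toNat ∣
        (x s : PowerSeries F)) ∧ (∀ k, lamZ la k ≤ S) ∧
      ∀ k, 1 ≤ k → k ≤ D → ∃ s : CVar D N th, lev s = k ∧
        ¬ (PowerSeries.X : PowerSeries F) ^ (pairZ la (wt s) + 2).toNat ∣ (x s : PowerSeries F) := by
  classical
  let P : ℤ → Prop := fun z => ∃ la : Fin D → ℤ, ∑ i, la i = z ∧
    ∀ s, (PowerSeries.X : PowerSeries F) ^ (pairZ la (wt s)).toNat ∣ (x s : PowerSeries F)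
  have hb : ∃ b : ℤ, ∀ z, P z → z ≤ b := by
    refine ⟨∑ _i : Fin D, (S : ℤ), ?_⟩
    rintro z ⟨la, rfl, hla⟩
    refine Finset.sum_le_sum fun i _ => ?_
    rw [← lamZ_succ la i]
    exact lamZ_le hst hdeg hc hla _
  have hi : ∃ z, P z := by
    refine ⟨0, 0, by simp, fun s => ?_⟩
    have h1 : pairZ (0 : Fin D → ℤ) (wt s) = 0 := by simp [pairZ]
    rw [h1]
    simp
  obtain ⟨z, ⟨la, hz, hla⟩, hmax⟩ := Int.exists_greatest_of_bdd hb hi
  refine ⟨la, hla, fun k => lamZ_le hst hdeg hc hla k, fun k hk hk' => ?_⟩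
  obtain ⟨i, rfl⟩ : ∃ i : Fin D, k = (i : ℕ) + 1 := ⟨⟨k - 1, by omega⟩, by simp; omega⟩
  have h1 : ¬ ∀ s, (PowerSeries.X : PowerSeries F) ^ (pairZ (la + Pi.single i 1) (wt s)).toNat ∣
      (x s : PowerSeries F) := by
    intro h
    have h2 := hmax _ ⟨la + Pi.single i 1, rfl, h⟩
    have h3 : ∑ j, (la + Pi.single i 1 : Fin D → ℤ) j = z + 1 := by
      simp only [Pi.add_apply, Finset.sum_add_distrib, hz]
      rw [Finset.sum_pi_single']
      simp
    linarith
  push Not at h1
  obtain ⟨s, hs⟩ := h1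
  rw [pairZ_add_single] at hs
  have h4 : 0 < wt s i := by
    by_contra h
    push Not at h
    apply hs
    exact (pow_dvd_pow _ (Int.toNat_le_toNat (by linarith))).trans (hla s)
  obtain ⟨h5, h6⟩ := wt_pos i s h4
  refine ⟨s, h5, fun h7 => hs ?_⟩
  exact (pow_dvd_pow _ (Int.toNat_le_toNat (by linarith))).trans h7

end maximum

end ZC
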