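import Mathlib
import Pool.Agent.Helper25.BD.Loc1
import Pool.Agent.Helper25.BD.Loc2
import Pool.Agent.Helper25.BD.Greenberg

/-!
# Chains over local fields

`hasZeros_FC`: the hypothesis one level below gives stable zeros over the field of fractions of the
ring of power series with coefficients in a finite extension of the finite field `κ`.
-/

set_option autoImplicit false

open MvPolynomial

namespace ZC

universe u v

section

variable (κ Fl : Type u) [Field κ] [Field Fl] [Algebra κ Fl]

/-- **normalised approximate zeros** -/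
theorem chain_approx_normalised [Algebra.IsAlgebraic κ Fl] {D N th r : ℕ} {d E : Fin r → ℕ}
    (h : UP D N th d E Fl)
    (f : (a : Fin r) → ℕ → Fin (E a) → MvPolynomial (CVar D N th) (PowerSeries Fl))
    (hf : ∀ a j i, 0 < j → j < d a * (D + 1) →
      IsWeightedHomogeneous wt (f a j i) (dg D (d a) j)) (T : ℕ) :
    ∃ x : CVar D N th → PowerSeries Fl, (∀ s, x s ∈ FC κ Fl) ∧
      (∀ k, 1 ≤ k → k ≤ D → ∃ s : CVar D N th, lev s = k ∧
        ¬ (PowerSeries.X : PowerSeries Fl) ^ 2 ∣ x s) ∧
      ∀ a j i, 0 < j → j < d a * (D + 1) →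
        (PowerSeries.X : PowerSeries Fl) ^ T ∣ eval x (f a j i) := by
  obtain ⟨S, x, hst, hdeg, hc, hx⟩ := chain_approx h f hf T
  obtain ⟨la, hla, hle, hmax⟩ := exists_max_la hst hdeg hc
  have h1 := fun s => exists_rescaled (LaurentSeries Fl) (good_FC (κ := κ) (Fl := Fl))
    (mem_FC_poly κ Fl (x s)) (hla s)
  choose x' hx'W hx' using h1
  refine ⟨x', hx'W, fun k hk hk' => ?_, fun a j i h0 h1 => ?_⟩
  · obtain ⟨s, hs, hs'⟩ := hmax k hk hk'
    refine ⟨s, hs, ?_⟩
    rintro ⟨y, hy⟩
    apply hs'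
    rcases le_total 0 (pairZ la (wt s) + 2) with h0 | h0
    · refine dvd_of_zpow (LaurentSeries Fl) (z := pairZ la (wt s) + 2)
        (le_of_eq (Int.toNat_of_nonneg h0)) (b := y) ?_
      rw [hx' s, hy, map_mul, map_pow, ← mul_assoc, zpow_add₀ (tL_ne_zero _)]
      rfl
    · rw [Int.toNat_of_nonpos h0, pow_zero]
      exact one_dvd _
  · have hd : 0 < d a := by
      rcases Nat.eq_zero_or_pos (d a) with h | h
      · rw [h, zero_mul] at h1
        omega
      · exact h
    obtain ⟨y, hy⟩ := hx a j i h0 h1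
    have h2 := eval_rescale (LaurentSeries Fl) (pairZ la) (hf a j i h0 h1) hx'
    have h3 := pairZ_dg_le la hd j hle
    refine dvd_of_zpow (LaurentSeries Fl)
      (z := ((d a * S + T : ℕ) : ℤ) - pairZ la (dg D (d a) j)) ?_ (b := y) ?_
    · push_cast
      linarith
    · have h4 : tL (LaurentSeries Fl) (F := Fl) ^ (pairZ la (dg D (d a) j)) ≠ 0 :=
        zpow_ne_zero _ (tL_ne_zero _)
      apply mul_left_cancel₀ h4
      rw [← h2, hy, map_mul, map_pow, ← mul_assoc, ← zpow_add₀ (tL_ne_zero _),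
        add_sub_cancel, zpow_natCast]
      rfl

/-- **local fields**: stable zeros over the power series with coefficients in a finite
subextension -/
theorem hasZeros_FC_ring [Finite κ] [Algebra.IsAlgebraic κ Fl] {D N th r : ℕ} {d E : Fin r → ℕ}
    (h : UP D N th d E Fl) : HasZeros D N th d E (FC κ Fl) := by
  classical
  intro g hg
  let f : (a : Fin r) → ℕ → Fin (E a) → MvPolynomial (CVar D N th) (PowerSeries Fl) :=
    fun a j i => map (FC κ Fl).subtype (g a j i)
  have hf : ∀ a j i, 0 < j → j < d a * (D + 1) →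
      IsWeightedHomogeneous wt (f a j i) (dg D (d a) j) := by
    intro a j i h0 h1 m hm
    rw [coeff_map] at hm
    exact hg a j i h0 h1 fun h2 => hm (by rw [h2, map_zero])
  choose x hxW hxs hxf using chain_approx_normalised κ Fl h f hf
  let fG : (Σ a : Fin r, Fin (d a * (D + 1)) × Fin (E a)) →
      MvPolynomial (CVar D N th) (PowerSeries Fl) := fun q =>
    if 0 < (q.2.1 : ℕ) then f q.1 q.2.1 q.2.2 else 0
  have hfG : ∀ q m, MvPolynomial.coeff m (fG q) ∈ FC κ Fl := by
    intro q m
    simp only [fG]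
    split_ifs
    · simp only [f]
      rw [coeff_map]
      exact (coeff m (g q.1 q.2.1 q.2.2)).2
    · rw [coeff_zero]
      exact zero_mem _
  have hxG : ∀ T q, (PowerSeries.X : PowerSeries Fl) ^ T ∣ eval (x T) (fG q) := by
    intro T q
    simp only [fG]
    split_ifs with h0
    · exact hxf T _ _ _ h0 q.2.1.2
    · rw [map_zero]
      exact dvd_zero _
  obtain ⟨T, -, y, hyW, hy, hyx⟩ := greenberg κ Fl fG hfG x hxW hxG 2
  refine ⟨fun s => ⟨y s, hyW s⟩, fun k hk hk' => ?_, fun a j i h0 h1 => ?_⟩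
  · obtain ⟨s, hs, hs'⟩ := hxs T k hk hk'
    refine ⟨s, hs, fun h2 => hs' ?_⟩
    have h3 : y s = 0 := congrArg Subtype.val h2
    have h4 := hyx s
    rwa [h3, zero_sub, dvd_neg] at h4
  · have h2 := hy ⟨a, ⟨j, h1⟩, i⟩
    simp only [fG, f] at h2
    rw [if_pos h0, eval_map] at h2
    have h3 := eval₂_comp_left (FC κ Fl).subtype (RingHom.id _)
      (fun s => (⟨y s, hyW s⟩ : FC κ Fl)) (g a j i)
    rw [RingHom.comp_id, eval₂_id] at h3
    apply Subtype.ext
    change (FC κ Fl).subtype (eval (fun s => (⟨y s, hyW s⟩ : FC κ Fl)) (g a j i)) = 0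
    rw [h3]
    exact h2

/-- **local fields** -/
theorem hasZeros_FC [Finite κ] [Algebra.IsAlgebraic κ Fl] {D N th r : ℕ} {d E : Fin r → ℕ}
    (h : UP D N th d E Fl) (M : Type v) [Field M] [Algebra (FC κ Fl) M]
    [IsFractionRing (FC κ Fl) M] : HasZeros D N th d E M :=
  HasZeros.of_integers M (hasZeros_FC_ring κ Fl h)

end

end ZC
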