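import Mathlib
import Pool.Agent.Helper15.FKS.Laurent
import Pool.Agent.Helper25.BD.Loc3
import Pool.Agent.Helper99.BD.Local
import Pool.Agent.Helper99.BD.ChainUp

/-!
# Chains over the completions of a function field over a finite field
-/

set_option autoImplicit false

namespace ZC

universe u

/-- **local fields**: chains over Laurent series -/
theorem chainUp_laurent (κ Fl : Type u) [Field κ] [Field Fl] [Algebra κ Fl] [Finite κ]
    [Algebra.IsAlgebraic κ Fl] {l n r : ℕ} {d : Fin r → ℕ} (h : PrimeTo l κ Fl)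
    (hz : ChainZero n d Fl) : ChainUp l n d (LaurentSeries κ) := by
  obtain ⟨D, hD, hz⟩ := hz
  obtain ⟨a, ha⟩ := primeTo_FC κ Fl h (LaurentSeries κ) (FractionRing (FC κ Fl))
  exact ⟨D, hD, FractionRing (FC κ Fl), inferInstance, a, ha, fun m hm =>
    hasZeros_FC κ Fl (E := fun _ => m) (fun c => hz m c hm) _⟩

/-- chains over the completions -/
theorem Place.chainUp {F k : Type u} [Field F] [Finite F] [Field k] [Algebra F k]
    (hk : IsCurveField F k) (v : Place F k) {l n r : ℕ} {d : Fin r → ℕ}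
    (hz : ∀ (κ : Type u) [Field κ] [Finite κ], ∃ (Fl : Type u) (_ : Field Fl) (_ : Algebra κ Fl),
      PrimeTo l κ Fl ∧ Algebra.IsAlgebraic κ Fl ∧ ChainZero n d Fl) :
    ChainUp l n d v.Completion := by
  obtain ⟨κ, _, _, ⟨e⟩⟩ := exists_laurent hk v
  obtain ⟨Fl, _, _, h1, h2, h3⟩ := hz κ
  exact (chainUp_laurent κ Fl h1 h3).of_ringEquiv e.symm

end ZC
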