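import Pool.Agent.Helper25.BD.Germ

/-!
# The function field of the approximate zeros is separable
-/

set_option autoImplicit false

namespace ZC

open Filter

section Pow

variable {R : Type*} [CommRing R] [IsDomain R] {t : R} {p : ℕ} {S : Type*}
  {L K : Type*} [Field L] [Field K] [Algebra R L] [IsFractionRing R L] [Algebra L K] [Algebra R K]
  [IsScalarTower R L K]

/-- `p`-th powers of independent elements are independent. -/
lemma linInd_pow (hR : NewtonRing t p) (hp : p.Prime) [CharP R p] (x : ℕ → S → R) (z : S → K)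
    (hker : ∀ g : MvPolynomial S R, MvPolynomial.aeval z g = 0 ↔
      g ∈ germ t (fun i => MvPolynomial.eval (x i)))
    (hz : ∀ w : K, ∃ a b : MvPolynomial S R,
      MvPolynomial.aeval z b ≠ 0 ∧ w * MvPolynomial.aeval z b = MvPolynomial.aeval z a)
    {ι : Type*} [Fintype ι] (v : ι → K) (hv : LinearIndependent L v) :
    LinearIndependent L (fun i => v i ^ p) := by
  classical
  have : Fact p.Prime := ⟨hp⟩
  rw [Fintype.linearIndependent_iff] at hv ⊢
  intro g hg
  obtain ⟨b, hb⟩ := IsLocalization.exist_integer_multiples_of_finite (nonZeroDivisors R) g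
  choose a' ha' using hb
  have hb0 : algebraMap R L b ≠ 0 := by
    rw [ne_eq, map_eq_zero_iff _ (IsFractionRing.injective R L)]
    exact nonZeroDivisors.ne_zero b.2
  -- a common denominator of the `v i`
  choose c d hd hcd using fun i => hz (v i)
  obtain ⟨h, hh⟩ : ∃ h : K, h = ∏ i, MvPolynomial.aeval z (d i) := ⟨_, rfl⟩
  have hh0 : h ≠ 0 := by
    rw [hh]
    exact Finset.prod_ne_zero_iff.2 fun i _ => hd i
  obtain ⟨G, hG⟩ : ∃ G : ι → MvPolynomial S R, G = fun i => c i * ∏ j ∈ Finset.univ.erase i, d j :=
    ⟨_, rfl⟩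
  have hGv : ∀ i, MvPolynomial.aeval z (G i) = h * v i := by
    intro i
    rw [hG, hh, map_mul, map_prod, ← hcd i, ← Finset.mul_prod_erase Finset.univ
      (fun j => MvPolynomial.aeval z (d j)) (Finset.mem_univ i)]
    ring
  have hRK : ∀ r : R, algebraMap R K r = algebraMap L K (algebraMap R L r) := fun r =>
    IsScalarTower.algebraMap_apply R L K r
  choose β hβ using fun i => hR.decomp (a' i)
  have hmem : (∑ i, MvPolynomial.C (a' i) * G i ^ p) ∈
      germ t (fun i => MvPolynomial.eval (x i)) := by
    rw [← hker, map_sum]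
    have h1 : ∀ i, MvPolynomial.aeval z (MvPolynomial.C (a' i) * G i ^ p) =
        (algebraMap L K (algebraMap R L b) * h ^ p) * (g i • v i ^ p) := by
      intro i
      rw [map_mul, map_pow, hGv, MvPolynomial.aeval_C, hRK, ha' i, Algebra.smul_def,
        Algebra.smul_def, map_mul]
      ring
    rw [Finset.sum_congr rfl fun i _ => h1 i, ← Finset.mul_sum, hg, mul_zero]
  have hsum : ∑ i, MvPolynomial.C (a' i) * G i ^ p =
      ∑ e ∈ Finset.range p, MvPolynomial.C (t ^ e) * (∑ i, MvPolynomial.C (β i e) * G i) ^ p := by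
    have h1 : ∀ e, (∑ i, MvPolynomial.C (β i e) * G i) ^ p =
        ∑ i, MvPolynomial.C (β i e ^ p) * G i ^ p := by
      intro e
      rw [sum_pow_char]
      exact Finset.sum_congr rfl fun i _ => by rw [mul_pow, map_pow]
    simp_rw [h1, Finset.mul_sum]
    rw [Finset.sum_comm]
    refine Finset.sum_congr rfl fun i _ => ?_
    conv_lhs => rw [hβ i]
    rw [map_sum, Finset.sum_mul]
    refine Finset.sum_congr rfl fun e _ => ?_
    rw [map_mul]
    ring
  rw [hsum] at hmem
  have hH : ∀ e, e < p → (∑ i, MvPolynomial.C (β i e) * G i) ∈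
      germ t (fun i => MvPolynomial.eval (x i)) := by
    intro e he m
    filter_upwards [hmem (p * m)] with i hi
    rw [map_sum] at hi
    have h2 := dvd_of_sum_dvd hR.prime (p := p) (fun e => MvPolynomial.eval (x i)
      (∑ i, MvPolynomial.C (β i e) * G i)) m (by
        refine hi.trans (dvd_of_eq (Finset.sum_congr rfl fun e _ => ?_))
        rw [map_mul, MvPolynomial.eval_C, map_pow]) e he
    exact h2
  have hβ0 : ∀ i e, e < p → β i e = 0 := by
    intro i e he
    have h1 := (hker _).2 (hH e he)
    rw [map_sum] at h1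
    have h2 : ∀ i, MvPolynomial.aeval z (MvPolynomial.C (β i e) * G i) =
        h * (algebraMap R L (β i e) • v i) := by
      intro i
      rw [map_mul, hGv, MvPolynomial.aeval_C, hRK, Algebra.smul_def]
      ring
    rw [Finset.sum_congr rfl fun i _ => h2 i, ← Finset.mul_sum] at h1
    have h3 := (mul_eq_zero.1 h1).resolve_left hh0
    have h4 := hv _ h3 i
    rwa [map_eq_zero_iff _ (IsFractionRing.injective R L)] at h4
  intro i
  have h1 : a' i = 0 := by
    rw [hβ i]
    refine Finset.sum_eq_zero fun e he => ?_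
    rw [hβ0 i e (Finset.mem_range.1 he), zero_pow hp.ne_zero, mul_zero]
  have h2 := ha' i
  rw [h1, map_zero, Algebra.smul_def] at h2
  exact (mul_eq_zero.1 h2.symm).resolve_left hb0

end Pow

end ZC
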