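import Mathlib

/-!
# Separating transcendence bases inside a finite family of generators
-/

set_option autoImplicit false

namespace ZC

open IntermediateField

section Sep

variable {k K ι : Type*} [Field k] [Field K] [Algebra k K]

/-- A transcendence basis inside a generating family. -/
lemma exists_basis_family (a : ι → K) (ha : IntermediateField.adjoin k (Set.range a) = ⊤) :
    ∃ s : Set ι, IsTranscendenceBasis k (fun i : s => a i) := by
  have halg : Algebra.IsAlgebraic (Algebra.adjoin k (Set.range a)) K := by
    rw [← isAlgebraic_adjoin_iff_top, ha, Algebra.isAlgebraic_iff_isIntegral]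
    exact Algebra.isIntegral_of_surjective topEquiv.surjective
  obtain ⟨t, hts, ht⟩ := exists_isTranscendenceBasis_subset (R := k) (Set.range a)
  have hch : ∀ x : t, ∃ i : ι, a i = x := fun x => hts x.2
  choose σ hσ using hch
  have hσi : Function.Injective σ := fun x y hxy => by
    apply Subtype.ext
    rw [← hσ x, ← hσ y, hxy]
  refine ⟨Set.range σ, ?_⟩
  let e : t ≃ Set.range σ := Equiv.ofInjective σ hσi
  have h1 := ht.comp_equiv e.symm
  convert h1 using 1
  funext i
  obtain ⟨i, x, rfl⟩ := i
  have : e.symm ⟨σ x, x, rfl⟩ = x := by
    rw [Equiv.symm_apply_eq]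
    rfl
  show a (σ x) = ((↑) ∘ e.symm) _
  rw [Function.comp_apply, this, hσ]

variable (p : ℕ) (hp : p.Prime) [ExpChar k p]
variable (H : ∀ s : Finset K,
  LinearIndepOn k _root_.id (s : Set K) → LinearIndepOn k (· ^ p) (s : Set K))

include hp H in
/-- Mac Lane: a separating transcendence basis inside a finite generating family. -/
theorem exists_sep_basis [Finite ι] (a : ι → K)
    (ha : IntermediateField.adjoin k (Set.range a) = ⊤) :
    ∃ s : Set ι, IsTranscendenceBasis k (fun i : s => a i) ∧
      Algebra.IsSeparable (IntermediateField.adjoin k (a '' s)) K := by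
  classical
  have hne := exists_basis_family (k := k) a ha
  obtain ⟨s, hs, hmax⟩ := Set.Finite.exists_maximalFor
    (fun s : Set ι => {n : ι | a n ∈ separableClosure (IntermediateField.adjoin k (a '' s)) K})
    {s : Set ι | IsTranscendenceBasis k (fun i : s => a i)} (Set.toFinite _) hne
  refine ⟨s, hs, ?_⟩
  have hall : ∀ n, a n ∈ separableClosure (IntermediateField.adjoin k (a '' s)) K := by
    intro n
    by_contra hn
    have hns : n ∉ s := fun h => hn (le_restrictScalars_separableClosure _
      (subset_adjoin _ _ ⟨n, h, rfl⟩))
    obtain ⟨i, hi₁, hi₂⟩ :=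
      exists_isTranscendenceBasis_and_isSeparable_of_linearIndepOn_pow' p hp H s n hs hns
    have hle : IntermediateField.adjoin k (a '' s) ≤
        (separableClosure (IntermediateField.adjoin k (a '' (insert n s \ {i}))) K).restrictScalars
          k := by
      rw [adjoin_le_iff]
      rintro _ ⟨j, hj, rfl⟩
      obtain rfl | hji := eq_or_ne j i
      · exact hi₂
      · exact le_restrictScalars_separableClosure _
          (subset_adjoin _ _ ⟨j, ⟨Set.mem_insert_of_mem _ hj, hji⟩, rfl⟩)
    rw [← separableClosure_le_separableClosure_iff] at hle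
    have h1 := hmax (j := insert n s \ {i}) hi₁ (fun m hm => hle hm)
    have h2 : n ∈ {m : ι | a m ∈
        separableClosure (IntermediateField.adjoin k (a '' (insert n s \ {i}))) K} := by
      obtain rfl | hni := eq_or_ne n i
      · exact hi₂
      · exact le_restrictScalars_separableClosure _
          (subset_adjoin _ _ ⟨n, ⟨Set.mem_insert _ _, hni⟩, rfl⟩)
    exact hn (h1 h2)
  rw [← separableClosure.eq_top_iff, ← (restrictScalars_injective k).eq_iff,
    restrictScalars_top, eq_top_iff, ← ha, adjoin_le_iff]
  rintro _ ⟨x, rfl⟩
  exact hall x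

end Sep

end ZC
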